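import Pool.Agent.MP_5a3d27_ag.Degree

open IntermediateField Polynomial

attribute [-instance] HahnSeries.powerSeriesAlgebra

namespace Pool.Agent.MP_5a3d27_ag

section Shift

/-- Two embeddings which agree on a subfield and differ by a constant at `h` agree at `h`. -/
theorem eq_zero_of_shift {A K N : Type*} [Field A] [Field K] [Field N] [CharZero K] [Algebra A K]
    (τ ι : K →+* N) (hA : ∀ x : A, τ (algebraMap A K x) = ι (algebraMap A K x)) (h : K)
    (hh : IsIntegral A h) (a : A) (hτ : τ h = ι (h + algebraMap A K a)) : a = 0 := by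
  by_contra ha
  set P := minpoly A h with hP
  have h0 : aeval (h + algebraMap A K a) P = 0 := by
    apply ι.injective
    rw [map_zero, aeval_def, hom_eval₂, ← hτ]
    have : ι.comp (algebraMap A K) = τ.comp (algebraMap A K) := RingHom.ext fun x => (hA x).symm
    rw [this, ← hom_eval₂, ← aeval_def, minpoly.aeval, map_zero]
  have hdvd : P ∣ P.comp (X + C a) := by
    apply minpoly.dvd
    rw [aeval_comp]
    simpa using h0
  have hall : ∀ m : ℕ, aeval (h + m * algebraMap A K a) P = 0 := by
    intro m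
    induction m with
    | zero => simp [hP]
    | succ m ih =>
      obtain ⟨Q, hQ⟩ := hdvd
      have h3 := congrArg (aeval (h + m * algebraMap A K a)) hQ
      rw [aeval_comp, map_mul, ih, zero_mul] at h3
      have h4 : aeval (h + m * algebraMap A K a) (X + C a) =
          h + ((m + 1 : ℕ) : K) * algebraMap A K a := by
        simp only [Nat.cast_add, Nat.cast_one, map_add, aeval_X, aeval_C]
        ring
      rwa [h4] at h3
  have hinf : (P.rootSet K).Infinite := by
    apply Set.infinite_of_injective_forall_mem (f := fun m : ℕ => h + m * algebraMap A K a)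
    · intro m m' hm
      have h4 : (m : K) * algebraMap A K a = m' * algebraMap A K a := add_left_cancel hm
      have h5 := mul_right_cancel₀ ((_root_.map_ne_zero _).2 ha) h4
      exact_mod_cast h5
    · intro m
      rw [mem_rootSet]
      exact ⟨minpoly.ne_zero hh, hall m⟩
  exact hinf (P.rootSet_finite K)

end Shift

section Core

variable {k F : Type*} [Field k] [IsAlgClosed k] [CharZero k] [Field F] [Algebra k F] {n : ℕ}

theorem core (K : Fin n → IntermediateField k F)
    (hfg : ∀ i, Algebra.EssFiniteType k (K i))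
    (h1 : ∀ i, Algebra.trdeg k (K i) = 1) (hgen : ⨆ i, K i = ⊤) (hn : Algebra.trdeg k F = n)
    (f : ∀ i, K i) (hf : ∀ i, Transcendental k (f i)) (i1 i2 : Fin n) (hi : i1 ≠ i2)
    (h : K i2) (hne : k⟮f i1⟯ ≠ ⊤)
    (M : IntermediateField k F) (hM : M = ⨆ j ∈ Finset.univ.erase i1, K j)
    {N : Type*} [Field N] [IsAlgClosed N] [Algebra k N] [Algebra M N] [IsScalarTower k M N]
    (hinf : Splits k (K i1) N (f i1) (ptInf N)) :
    ∃ (τ₀ : F →+* Om N) (σ : Om N →+* Om N),
      (∀ x ∈ (⨆ i, k⟮tw K f i1 i2 h i⟯ : IntermediateField k F), σ (τ₀ x) = τ₀ x) ∧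
      (∃ x, σ (τ₀ x) ≠ τ₀ x) ∧
      ∀ τ : F →+* Om N,
        (∀ x ∈ (⨆ i, k⟮tw K f i1 i2 h i⟯ : IntermediateField k F), τ x = τ₀ x) →
        (∃ x, σ (τ x) ≠ τ x) → τ h = τ₀ h := by
  have hfd : FiniteDimensional k⟮f i1⟯ (K i1) := 
    haveI := hfg i1
    finiteDimensional_of_trdeg_one (h1 i1) (hf i1)
  have hhM : (h : F) ∈ M := by
    rw [hM]
    exact (le_iSup₂_of_le (f := fun j _ => K j) i2 (by simp [hi.symm]) le_rfl) h.2
  have htop : K i1 ⊔ M = ⊤ := by
    rw [eq_top_iff, ← hgen, hM]
    refine iSup_le fun i => ?_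
    by_cases hi' : i = i1
    · subst hi'; exact le_sup_left
    · exact le_sup_of_le_right (le_iSup₂_of_le i (by simp [hi']) le_rfl)
  have htr : Transcendental M (f i1 : F) := by
    rw [hM]
    exact transcendental_over_iSup K h1 hgen hn f hf _ i1 (by simp)
  obtain ⟨b, ρ, hρb, u0, hu0⟩ := exists_ramified (N := N) (hf i1) hne hinf
  let ι : M →ₐ[k] Om N := (IsScalarTower.toAlgHom k N (Om N)).comp (IsScalarTower.toAlgHom k M N)
  have hιN : ∀ x : M, ι x = algebraMap N (Om N) (algebraMap M N x) := fun x => rfl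
  have hNL : ∀ x : N, algebraMap N (Om N) x =
      algebraMap (LaurentSeries N) (Om N) (algebraMap N (LaurentSeries N) x) := fun x =>
    IsScalarTower.algebraMap_apply N (LaurentSeries N) (Om N) x
  obtain ⟨τ₀, hτK, hτM⟩ := exists_extension (K i1) M htop (f i1)
    (isAlgebraic_of_trdeg_one (h1 i1) (hf i1)) htr ρ ι (by
      intro p hp
      rw [hρb] at hp
      have e1 : (ι : M →+* Om N) = (algebraMap (LaurentSeries N) (Om N)).comp
        ((algebraMap N (LaurentSeries N)).comp (algebraMap M N)) := by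
        refine RingHom.ext fun x => ?_
        change ι x = _
        rw [hιN, RingHom.comp_apply, RingHom.comp_apply, hNL]
      rw [e1, ← hom_eval₂, ← eval₂_map, ← aeval_def, map_eq_zero] at hp
      have := transcendental_iff.1 (transcendental_pt (N := N) (algebraMap k N b)) _ hp
      exact (Polynomial.map_eq_zero _).1 this)
  have hτk : ∀ c : k, τ₀ (algebraMap k F c) = algebraMap k (Om N) c := by
    intro c
    have h3 := hτM (algebraMap k M c)
    rw [AlgHom.commutes] at h3
    exact h3
  haveI : CharZero (LaurentSeries N) :=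
    charZero_of_injective_algebraMap (algebraMap k (LaurentSeries N)).injective
  haveI : IsGalois (LaurentSeries N) (Om N) := {}
  -- the automorphism
  obtain ⟨σ, hσ⟩ : ∃ σ : Om N ≃ₐ[LaurentSeries N] Om N, σ (ρ u0) ≠ ρ u0 := by
    by_contra hcon
    push Not at hcon
    apply hu0
    have h3 := (InfiniteGalois.mem_range_algebraMap_iff_fixed (k := LaurentSeries N)
      (K := Om N) (ρ u0)).2 hcon
    exact h3
  have hσL : ∀ y : LaurentSeries N, σ (algebraMap (LaurentSeries N) (Om N) y) =
    algebraMap (LaurentSeries N) (Om N) y := fun y => σ.commutes y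
  have hσN : ∀ y : N, σ (algebraMap N (Om N) y) = algebraMap N (Om N) y := fun y => by
    rw [hNL, hσL]
  have htwmem : ∀ i, tw K f i1 i2 h i ∈ (⨆ i, k⟮tw K f i1 i2 h i⟯ : IntermediateField k F) := 
    fun i => (le_iSup (fun i => k⟮tw K f i1 i2 h i⟯) i) (mem_adjoin_simple_self k _)
  have htw1 : (f i1 + h : F) ∈ (⨆ i, k⟮tw K f i1 i2 h i⟯ : IntermediateField k F) := by
    have h3 := htwmem i1
    simpa only [tw, Function.update_self] using h3
  have htw2 : ∀ j, j ≠ i1 → (f j : F) ∈ (⨆ i, k⟮tw K f i1 i2 h i⟯ : IntermediateField k F) := by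
    intro j hj
    have h3 := htwmem j
    simpa only [tw, Function.update_of_ne hj] using h3
  have hjM : ∀ j, j ≠ i1 → K j ≤ M := by
    intro j hj
    rw [hM]
    exact le_iSup₂_of_le j (by simp [hj]) le_rfl
  refine ⟨τ₀, σ, ?_, ?_, ?_⟩
  · -- `σ` fixes the image of `E'`
    let τ₀' : F →ₐ[k] Om N := { τ₀ with commutes' := hτk }
    have hle : (⨆ i, k⟮tw K f i1 i2 h i⟯ : IntermediateField k F) ≤ 
        ((IsScalarTower.toAlgHom k (LaurentSeries N) (Om N)).fieldRange).comap τ₀' := by
      rw [iSup_tw]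
      apply sup_le
      · refine iSup₂_le fun j hj => ?_
        have hj' : j ≠ i1 := (Finset.mem_erase.1 hj).1
        rw [adjoin_simple_le_iff]
        refine ⟨algebraMap N (LaurentSeries N) (algebraMap M N ⟨f j, hjM j hj' (f j).2⟩), ?_⟩
        change algebraMap (LaurentSeries N) (Om N) _ = τ₀ (f j)
        have h3 := hτM ⟨f j, hjM j hj' (f j).2⟩
        rw [← hNL, ← hιN, ← h3]
      · rw [adjoin_simple_le_iff]
        refine ⟨pt (algebraMap k N b) + algebraMap N (LaurentSeries N) (algebraMap M N ⟨h, hhM⟩), ?_⟩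
        change algebraMap (LaurentSeries N) (Om N) _ = τ₀ (f i1 + h)
        have h3 := hτM ⟨h, hhM⟩
        have h4 := hτK (f i1)
        rw [map_add (algebraMap (LaurentSeries N) (Om N)), map_add τ₀, ← hNL, ← hιN, ← h3, h4, hρb]
    intro x hx
    obtain ⟨y, hy⟩ := hle hx
    change algebraMap (LaurentSeries N) (Om N) y = τ₀ x at hy
    rw [← hy]
    exact hσL y
  · exact ⟨u0, by rw [hτK]; exact hσ⟩
  · intro τ hτ hmove
    by_contra hcon
    have hτk' : ∀ c : k, τ (algebraMap k F c) = algebraMap k (Om N) c := fun c => by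
      rw [hτ _ (IntermediateField.algebraMap_mem _ c), hτk]
    have hadj : ∀ j, j ≠ i1 → k⟮(f j : F)⟯ ≤ (⨆ i, k⟮tw K f i1 i2 h i⟯ : IntermediateField k F) :=
      fun j hj => by rw [adjoin_simple_le_iff]; exact htw2 j hj
    have hadjM : ∀ j, j ≠ i1 → k⟮(f j : F)⟯ ≤ M :=
      fun j hj => by rw [adjoin_simple_le_iff]; exact hjM j hj (f j).2
    have hconst : ∀ j, j ≠ i1 → ∀ x ∈ K j, ∃ y : N, algebraMap N (Om N) y = τ x := by
      intro j hj x hx
      apply mem_const
      have h3 := isAlgebraic_over_adjoin (K j) (h1 j) (f j) (hf j) x hx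
      let g : k⟮(f j : F)⟯ →+* N :=
        (algebraMap M N).comp (IntermediateField.inclusion (hadjM j hj) : k⟮(f j : F)⟯ →+* M)
      refine h3.ringHom_of_comp_eq g τ g.injective ?_
      refine RingHom.ext fun y => ?_
      have h4 : τ (y : F) = τ₀ (y : F) := hτ _ (hadj j hj y.2)
      have h5 := hτM ⟨y, hadjM j hj y.2⟩
      rw [hιN] at h5
      change algebraMap N (Om N) (algebraMap M N ⟨y, hadjM j hj y.2⟩) = τ (y : F)
      rw [h4, ← h5]
    obtain ⟨c', hc'⟩ := hconst i2 hi.symm h h.2
    set c : N := algebraMap k N b + algebraMap M N ⟨h, hhM⟩ - c' with hc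
    have hτf1 : τ (f i1) = algebraMap (LaurentSeries N) (Om N) (pt c) := by
      have h3 : τ (f i1 + h) = τ₀ (f i1 + h) := hτ _ htw1
      have h4 := hτM ⟨h, hhM⟩
      have h5 := hτK (f i1)
      rw [map_add, map_add, h5, h4, hρb, ← hc'] at h3
      have h6 : τ (f i1) = algebraMap (LaurentSeries N) (Om N) (pt (algebraMap k N b)) +
        ι ⟨h, hhM⟩ - algebraMap N (Om N) c' := by rw [← h3]; ring
      rw [h6, hιN, hNL, hNL, ← map_add, ← map_sub]
      congr 1
      have e2 : ∀ y : N, pt y = sX N + algebraMap N (LaurentSeries N) y := fun y => rfl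
      rw [e2, e2, hc, map_sub (algebraMap N (LaurentSeries N)),
        map_add (algebraMap N (LaurentSeries N))]
      ring
    by_cases hctr : Transcendental k c
    · obtain ⟨r, hr, hgood⟩ := exists_good (N := N) (hf i1)
      have hsp := hgood c (fun h3 => hr (transcendental_iff.1 hctr r h3))
      let ρ' : K i1 →ₐ[k] Om N :=
        { τ.comp ((K i1).val : K i1 →+* F) with commutes' := fun c => hτk' c }
      have hsp' := hsp ρ' hτf1
      have hall : (σ : Om N →+* Om N).comp τ = τ := by
        apply ext_of_iSup K hgen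
        · intro c
          rw [RingHom.comp_apply, hτk', IsScalarTower.algebraMap_apply k N (Om N)]
          exact hσN _
        · intro i x hx
          by_cases hi' : i = i1
          · subst hi'
            obtain ⟨y, hy⟩ := hsp' ⟨x, hx⟩
            have hy' : algebraMap (LaurentSeries N) (Om N) y = τ x := hy
            rw [RingHom.comp_apply, ← hy']
            exact hσL y
          · obtain ⟨y, hy⟩ := hconst i hi' x hx
            rw [RingHom.comp_apply, ← hy]
            exact hσN y
      obtain ⟨x, hx⟩ := hmove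
      exact hx (RingHom.congr_fun hall x)
    · rw [Transcendental, not_not] at hctr
      obtain ⟨a, ha⟩ : ∃ a : k, algebraMap k N a = c :=
        minpoly.mem_range_of_degree_eq_one k c
          (IsAlgClosed.degree_eq_one_of_irreducible k (minpoly.irreducible hctr.isIntegral))
      have hτh : τ h = τ₀ (h + algebraMap k F (b - a)) := by
        rw [map_add, hτk, hτM ⟨h, hhM⟩, hιN, ← hc', map_sub,
          IsScalarTower.algebraMap_apply k N (Om N) b, IsScalarTower.algebraMap_apply k N (Om N) a,
          ← map_sub, ← map_add]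
        congr 1
        rw [ha, hc]
        ring
      have hz := eq_zero_of_shift (A := k⟮f i2⟯) (K := K i2) (τ.comp ((K i2).val : K i2 →+* F))
        (τ₀.comp ((K i2).val : K i2 →+* F)) ?_ h ?_ (algebraMap k k⟮f i2⟯ (b - a)) ?_
      · rw [map_eq_zero] at hz
        rw [hz, map_zero, add_zero] at hτh
        exact hcon hτh
      · intro x
        have hle : (k⟮f i2⟯).map (K i2).val ≤ k⟮(f i2 : F)⟯ := by
          rw [adjoin_map]; simp
        exact hτ _ (hadj i2 hi.symm (hle ⟨x, x.2, rfl⟩))
      · exact ((isAlgebraic_of_trdeg_one (h1 i2) (hf i2)).isAlgebraic h).isIntegral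
      · exact hτh

end Core

end Pool.Agent.MP_5a3d27_ag
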