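import Pool.Agent.MP_5a3d27_ag.Core

open IntermediateField Polynomial

attribute [-instance] HahnSeries.powerSeriesAlgebra

namespace Pool.Agent.MP_5a3d27_ag

variable {k F : Type*} [Field k] [Field F] [Algebra k F] {n : ℕ}

/-- The field where two embeddings agree. -/
def eqField {Ω : Type*} [Field Ω] (τ τ' : F →+* Ω)
    (hk : ∀ c : k, τ (algebraMap k F c) = τ' (algebraMap k F c)) : IntermediateField k F where
  carrier := {x | τ x = τ' x}
  mul_mem' := fun {a b} ha hb => by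
    simp only [Set.mem_ofPred_eq] at ha hb ⊢
    rw [map_mul, map_mul, ha, hb]
  one_mem' := by simp
  add_mem' := fun {a b} ha hb => by
    simp only [Set.mem_ofPred_eq] at ha hb ⊢
    rw [map_add, map_add, ha, hb]
  zero_mem' := by simp
  algebraMap_mem' := hk
  inv_mem' := fun a ha => by
    simp only [Set.mem_ofPred_eq] at ha ⊢
    rw [map_inv₀, map_inv₀, ha]

/-- Upper bound for the number of moved embeddings. -/
theorem card_moved_le [CharZero k] {Ω : Type*} [Field Ω] [IsAlgClosed Ω] (E : IntermediateField k F) (h : F)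
    (hfd : 0 < Module.finrank (E ⊔ k⟮h⟯ : IntermediateField k F) F)
    (τ₀ : F →+* Ω) (σ : Ω →+* Ω)
    (H : ∀ τ : F →+* Ω, (∀ x ∈ E, τ x = τ₀ x) → (∃ x, σ (τ x) ≠ τ x) → τ h = τ₀ h) :
    Nat.card {τ' : F →+* Ω // (∀ x ∈ E, τ' x = τ₀ x) ∧ ∃ x, σ (τ' x) ≠ τ' x} ≤
      Module.finrank (E ⊔ k⟮h⟯ : IntermediateField k F) F := by
  set B : IntermediateField k F := E ⊔ k⟮h⟯ with hB
  haveI : FiniteDimensional B F := Module.finite_of_finrank_pos hfd
  have hcard := card_embSet (A := B) (B := F) (τ₀.comp (algebraMap B F))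
  rw [← hcard]
  let q : {τ' : F →+* Ω // (∀ x ∈ E, τ' x = τ₀ x) ∧ ∃ x, σ (τ' x) ≠ τ' x} →
      EmbSet (B := F) (τ₀.comp (algebraMap B F)) := fun τ => ⟨τ.1, by
    refine RingHom.ext fun x => ?_
    have hk : ∀ c : k, τ.1 (algebraMap k F c) = τ₀ (algebraMap k F c) := fun c =>
      τ.2.1 _ (E.algebraMap_mem c)
    have hle : B ≤ eqField τ.1 τ₀ hk := by
      rw [hB]
      apply sup_le
      · exact fun y hy => τ.2.1 y hy
      · rw [adjoin_simple_le_iff]
        exact H τ.1 τ.2.1 τ.2.2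
    exact hle x.2⟩
  refine Nat.card_le_card_of_injective q fun a b hab => ?_
  have h3 : (q a).1 = (q b).1 := congrArg Subtype.val hab
  exact Subtype.ext h3

variable [IsAlgClosed k] [CharZero k]

/-- The main theorem in terms of subfields. -/
theorem main_aux (K : Fin n → IntermediateField k F)
    (hfg : ∀ i, Algebra.EssFiniteType k (K i))
    (h1 : ∀ i, Algebra.trdeg k (K i) = 1) (hgen : ⨆ i, K i = ⊤) (hn : Algebra.trdeg k F = n)
    (f : ∀ i, K i) (hf : ∀ i, Transcendental k (f i)) (i1 i2 : Fin n) (hi : i1 ≠ i2)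
    (h : K i2) (hh : k⟮f i2⟯⟮h⟯ = ⊤) (hne : k⟮f i1⟯ ≠ ⊤)
    (M : IntermediateField k F) (hM : M = ⨆ j ∈ Finset.univ.erase i1, K j)
    {N : Type*} [Field N] [IsAlgClosed N] [Algebra k N] [Algebra M N] [IsScalarTower k M N]
    (hinf : Splits k (K i1) N (f i1) (ptInf N))
    (hmin : ∀ i, ∀ g : K i, Transcendental k g →
      Module.finrank k⟮f i⟯ (K i) ≤ Module.finrank k⟮g⟯ (K i))
    (hmax : ∀ i, Module.finrank k⟮f i⟯ (K i) ≤ Module.finrank k⟮f i2⟯ (K i2))
    (g : ∀ i, K i) (hg : ∀ i, Transcendental k (g i)) (α : F ≃ₐ[k] F)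
    (hα : (⨆ i, k⟮(g i : F)⟯).map (α : F →ₐ[k] F) = ⨆ i, k⟮tw K f i1 i2 h i⟯) : False := by
  obtain ⟨τ₀, σ, hσ1, hσ2, hσ3⟩ := core K hfg h1 hgen hn f hf i1 i2 hi h hne M hM hinf
  have hfd : ∀ i (g : K i), Transcendental k g → 0 < Module.finrank k⟮g⟯ (K i) := by
    intro i g hg
    haveI := hfg i
    haveI := finiteDimensional_of_trdeg_one (h1 i) hg
    exact Module.finrank_pos
  set d : Fin n → ℕ := fun i => Module.finrank k⟮f i⟯ (K i) with hd
  set e : Fin n → ℕ := fun i => Module.finrank k⟮g i⟯ (K i) with he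
  have hdpos : ∀ i, 0 < d i := fun i => hfd i (f i) (hf i)
  -- degrees
  have hdeg1 := degree_tw K h1 hgen hn f hf i1 i2 h hi
  have hdeg2 : Module.finrank (⨆ i, k⟮(g i : F)⟯ : IntermediateField k F) F = ∏ i, e i := by
    rw [finrank_iSup K h1 hgen hn g hg (fun i => k⟮(g i : F)⟯) (fun i => Or.inl rfl)]
    exact Finset.prod_congr rfl fun i _ => relfinrank_adjoin (K i) (g i)
  have hdeg3 := degree_tw' K h1 hgen hn f hf i1 i2 h hi hh
  have hde : ∏ i, e i = ∏ i, d i := by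
    rw [← hdeg2, ← hdeg1, ← hα]
    have h3 := relfinrank_map_map (A := ⨆ i, k⟮(g i : F)⟯) (B := (⊤ : IntermediateField k F))
      (f := (α : F →ₐ[k] F))
    have h4 : (⊤ : IntermediateField k F).map (α : F →ₐ[k] F) = ⊤ := by
      rw [← AlgHom.fieldRange_eq_map]
      exact AlgEquiv.fieldRange_eq_top α
    rw [h4, relfinrank_top_right, relfinrank_top_right] at h3
    exact h3.symm
  have hed : ∀ i, e i = d i := by
    by_contra hcon
    push Not at hcon
    obtain ⟨i, hi⟩ := hcon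
    have := Finset.prod_lt_prod (s := Finset.univ) (f := d) (g := e) (fun i _ => hdpos i)
      (fun i _ => hmin i (g i) (hg i)) ⟨i, Finset.mem_univ i, lt_of_le_of_ne (hmin i (g i) (hg i)) (Ne.symm hi)⟩
    omega
  have hupper := card_moved_le (⨆ i, k⟮tw K f i1 i2 h i⟯) (h : F) (by
    rw [hdeg3]
    exact Finset.prod_pos fun i _ => hdpos i) τ₀ σ hσ3
  rw [hdeg3] at hupper
  -- lower bound
  have hEmem : ∀ x, x ∈ (⨆ i, k⟮(g i : F)⟯ : IntermediateField k F) ↔
      α x ∈ (⨆ i, k⟮tw K f i1 i2 h i⟯ : IntermediateField k F) := by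
    intro x
    rw [← hα]
    constructor
    · intro hx
      exact ⟨x, hx, rfl⟩
    · rintro ⟨y, hy, hxy⟩
      have : y = x := α.injective hxy
      rwa [← this]
  obtain ⟨i, hlow⟩ := many_moved K hfg h1 hgen hn g hg _ rfl (τ₀.comp (α : F →+* F)) σ
    (fun x hx => hσ1 _ ((hEmem x).1 hx)) (τ₀.comp (α : F →+* F)) (fun x _ => rfl) (by
      obtain ⟨x, hx⟩ := hσ2
      refine ⟨α.symm x, ?_⟩
      simpa using hx)
  have hcard : Nat.card {τ' : F →+* Om N // (∀ x ∈ (⨆ i, k⟮(g i : F)⟯ : IntermediateField k F),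
      τ' x = (τ₀.comp (α : F →+* F)) x) ∧ ∃ x, σ (τ' x) ≠ τ' x} = 
      Nat.card {τ' : F →+* Om N // (∀ x ∈ (⨆ i, k⟮tw K f i1 i2 h i⟯ : IntermediateField k F),
        τ' x = τ₀ x) ∧ ∃ x, σ (τ' x) ≠ τ' x} := by
    apply Nat.card_congr
    refine
      { toFun := fun τ => ⟨τ.1.comp (α.symm : F →+* F), ?_, ?_⟩
        invFun := fun τ => ⟨τ.1.comp (α : F →+* F), ?_, ?_⟩
        left_inv := ?_
        right_inv := ?_ }
    · intro x hx
      have h3 := τ.2.1 (α.symm x) ((hEmem _).2 (by simpa using hx))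
      simpa using h3
    · obtain ⟨x, hx⟩ := τ.2.2
      exact ⟨α x, by simpa using hx⟩
    · intro x hx
      exact τ.2.1 (α x) ((hEmem _).1 hx)
    · obtain ⟨x, hx⟩ := τ.2.2
      exact ⟨α.symm x, by simpa using hx⟩
    · intro τ
      apply Subtype.ext
      ext x
      simp
    · intro τ
      apply Subtype.ext
      ext x
      simp
  rw [hcard] at hlow
  have hlow' : 2 * ∏ j ∈ Finset.univ.erase i, d j ≤ ∏ j ∈ Finset.univ.erase i2, d j := by
    refine le_trans (le_of_eq ?_) (hlow.trans hupper)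
    congr 1
    exact Finset.prod_congr rfl fun j _ => (hed j).symm
  have e1 := Finset.mul_prod_erase Finset.univ d (Finset.mem_univ i)
  have e2 := Finset.mul_prod_erase Finset.univ d (Finset.mem_univ i2)
  have hpos : 0 < ∏ i, d i := Finset.prod_pos fun i _ => hdpos i
  have h3 : d i * (2 * ∏ j ∈ Finset.univ.erase i, d j) ≤ d i2 * ∏ j ∈ Finset.univ.erase i2, d j :=
    Nat.mul_le_mul (hmax i) hlow'
  have h4 : d i * (2 * ∏ j ∈ Finset.univ.erase i, d j) = 2 * ∏ i, d i := by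
    rw [← e1]; ring
  rw [h4, e2] at h3
  omega

end Pool.Agent.MP_5a3d27_ag
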