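import Pool.Agent.MP_5a3d27_ag.Tensor

/-!
# Function fields of curves and of products of curves, and rational maps to projective space
-/

open IntermediateField TensorProduct

namespace Pool.Agent.MP_5a3d27_ag

/-- `K` is the function field of a smooth projective irreducible curve over `ℂ`: a finitely
generated field extension of `ℂ` of transcendence degree one. -/
structure IsCurveField (K : Type) [Field K] [Algebra ℂ K] : Prop where
  fg : (⊤ : IntermediateField ℂ K).FG
  trdeg : Algebra.trdeg ℂ K = 1

/-- The gonality of a curve with function field `K`: the least degree `[K : ℂ(f)]` of a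
non-constant rational function `f` on the curve, i.e. of a non-constant morphism to `ℙ¹`. -/
noncomputable def gonality (K : Type) [Field K] [Algebra ℂ K] : ℕ :=
  sInf {d : ℕ | ∃ f : K, Transcendental ℂ f ∧ Module.finrank ℂ⟮f⟯ K = d}

section Defs

variable {n : ℕ} (K : Fin n → Type) [∀ i, Field (K i)] [∀ i, Algebra ℂ (K i)]

/-- The ring `K₁ ⊗ ⋯ ⊗ K_n`, tensor product over `ℂ`. -/
def TensorRing : Type := ⨂[ℂ] i, K i

noncomputable instance : CommRing (TensorRing K) :=
  (inferInstance : CommRing (⨂[ℂ] i, K i))

noncomputable instance : Algebra ℂ (TensorRing K) :=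
  (inferInstance : Algebra ℂ (⨂[ℂ] i, K i))

instance : IsDomain (TensorRing K) := isDomain_pi n K

/-- The function field of `C₁ × ⋯ × C_n`, where `K i` is the function field of `C_i`: the field
of fractions of `K₁ ⊗ ⋯ ⊗ K_n`. -/
def ProductField : Type := FractionRing (TensorRing K)

noncomputable instance : Field (ProductField K) :=
  (inferInstance : Field (FractionRing (TensorRing K)))

noncomputable instance : Algebra ℂ (ProductField K) :=
  (inferInstance : Algebra ℂ (FractionRing (TensorRing K)))

noncomputable instance : Algebra (TensorRing K) (ProductField K) :=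
  (inferInstance : Algebra (TensorRing K) (FractionRing (TensorRing K)))

/-- The pull back `ℂ(C_i) → ℂ(X)` along the projection `X → C_i`: `x ↦ 1 ⊗ ⋯ ⊗ x ⊗ ⋯ ⊗ 1`. -/
noncomputable def pr (i : Fin n) (x : K i) : ProductField K :=
  algebraMap (TensorRing K) (ProductField K) (PiTensorProduct.tprod ℂ (Pi.mulSingle i x))

/-- The function field `ℂ(x₁, …, x_n)` of `ℙⁿ`, or of `(ℙ¹)ⁿ`. -/
def RatField (n : ℕ) : Type := FractionRing (MvPolynomial (Fin n) ℂ)

noncomputable instance : Field (RatField n) :=
  (inferInstance : Field (FractionRing (MvPolynomial (Fin n) ℂ)))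

noncomputable instance : Algebra ℂ (RatField n) :=
  (inferInstance : Algebra ℂ (FractionRing (MvPolynomial (Fin n) ℂ)))

/-- The coordinate `x_i` of `ℂ(x₁, …, x_n)`. -/
noncomputable def coord (i : Fin n) : RatField n :=
  algebraMap (MvPolynomial (Fin n) ℂ) (FractionRing (MvPolynomial (Fin n) ℂ)) (MvPolynomial.X i)

/-- A dominant rational map `φ` from `X = C₁ × ⋯ × C_n` to `ℙⁿ`, given by its pull back
`φ^* : ℂ(ℙⁿ) → ℂ(X)`. -/
abbrev RationalMap : Type := RatField n →ₐ[ℂ] ProductField K

variable {K}

/-- The degree `[ℂ(X) : φ^* ℂ(ℙⁿ)]` of a dominant rational map. -/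
noncomputable def degree (φ : RationalMap K) : ℕ := Module.finrank φ.fieldRange (ProductField K)

/-- `ψ` is a product of rational maps `C_i ⇢ ℙ¹` followed by the birational map
`(ℙ¹)ⁿ ⇢ ℙⁿ` which is the identity on function fields: the pull back of the `i`-th coordinate
is a rational function on `C_i`. -/
def IsProductMap (ψ : RationalMap K) : Prop := ∀ i, ∃ g : K i, ψ (coord i) = pr K i g

/-- `φ` and `ψ` are birationally equivalent: `β ∘ φ = ψ ∘ α` for birational maps `α` of `X` and
`β` of `ℙⁿ`; in terms of function fields `φ^* ∘ β^* = α^* ∘ ψ^*`. -/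
def BirationallyEquivalent (φ ψ : RationalMap K) : Prop :=
  ∃ (α : ProductField K ≃ₐ[ℂ] ProductField K) (β : RatField n ≃ₐ[ℂ] RatField n),
    ∀ x, φ (β x) = α (ψ x)

end Defs

end Pool.Agent.MP_5a3d27_ag
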