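import Pool.Agent.MP_5a3d27_ag.Twist

open IntermediateField Polynomial

namespace Pool.Agent.MP_5a3d27_ag

variable {k F : Type*} [Field k] [IsAlgClosed k] [CharZero k] [Field F] [Algebra k F] {n : ℕ}

omit [IsAlgClosed k] [CharZero k] in
/-- A primitive element of `K / k(f)` generates `K` together with `f`. -/
theorem le_of_primitive (K : IntermediateField k F) (f h : K) (hh : k⟮f⟯⟮h⟯ = ⊤)
    (T : IntermediateField k F) (hfT : (f : F) ∈ T) (hhT : (h : F) ∈ T) : K ≤ T := by
  intro x hx
  have h1 : k⟮f⟯ ≤ T.comap K.val := by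
    rw [adjoin_simple_le_iff]
    exact hfT
  have h2 : (⊤ : IntermediateField k⟮f⟯ K) ≤ extendScalars h1 := by
    rw [← hh, adjoin_simple_le_iff]
    exact hhT
  exact h2 (show (⟨x, hx⟩ : K) ∈ (⊤ : IntermediateField k⟮f⟯ K) from trivial)

omit [IsAlgClosed k] [CharZero k] in
theorem isAlgebraic_over_adjoin (K : IntermediateField k F) (h1 : Algebra.trdeg k K = 1)
    (g : K) (hg : Transcendental k g) (x : F) (hx : x ∈ K) : IsAlgebraic k⟮(g : F)⟯ x := by
  have h3 := (isAlgebraic_of_trdeg_one h1 hg).isAlgebraic ⟨x, hx⟩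
  have hle : ∀ y : k⟮g⟯, ((y : K) : F) ∈ k⟮(g : F)⟯ := by
    rintro ⟨y, hy⟩
    have : (k⟮g⟯).map K.val ≤ k⟮(g : F)⟯ := by
      rw [adjoin_map]; simp
    exact this ⟨y, hy, rfl⟩
  let j : k⟮g⟯ →+* k⟮(g : F)⟯ :=
    { toFun := fun y => ⟨((y : K) : F), hle y⟩
      map_one' := rfl
      map_mul' := fun _ _ => rfl
      map_zero' := rfl
      map_add' := fun _ _ => rfl }
  exact h3.ringHom_of_comp_eq j K.val.toRingHom j.injective rfl

omit [IsAlgClosed k] [CharZero k] in
theorem adjoin_gen_eq_top (z : F) : k⟮AdjoinSimple.gen k z⟯ = ⊤ := by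
  apply map_injective (k⟮z⟯).val
  rw [adjoin_map]
  rw [← AlgHom.fieldRange_eq_map, fieldRange_val]
  simp

section

variable (K : Fin n → IntermediateField k F)
    (h1 : ∀ i, Algebra.trdeg k (K i) = 1) (hgen : ⨆ i, K i = ⊤) (hn : Algebra.trdeg k F = n)
    (f : ∀ i, K i) (hf : ∀ i, Transcendental k (f i)) (i1 i2 : Fin n)
    (h : K i2)

/-- The twisted family `f_1 + h, f_2, ..., f_n`. -/
noncomputable def tw (K : Fin n → IntermediateField k F) (f : ∀ i, K i) (i1 i2 : Fin n)
    (h : K i2) : Fin n → F :=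
  Function.update (fun j => (f j : F)) i1 (f i1 + h)

omit [IsAlgClosed k] [CharZero k] in
theorem iSup_tw : (⨆ i, k⟮tw K f i1 i2 h i⟯) =
    (⨆ j ∈ Finset.univ.erase i1, k⟮(f j : F)⟯) ⊔ k⟮(f i1 + h : F)⟯ := by
  apply le_antisymm
  · refine iSup_le fun i => ?_
    by_cases hi : i = i1
    · subst hi
      simp only [tw, Function.update_self]
      exact le_sup_right
    · simp only [tw, Function.update_of_ne hi]
      exact le_sup_of_le_left (le_iSup₂_of_le i (by simp [hi]) le_rfl)
  · apply sup_le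
    · refine iSup₂_le fun j hj => ?_
      have hj' : j ≠ i1 := (Finset.mem_erase.1 hj).1
      refine le_trans (le_of_eq ?_) (le_iSup _ j)
      simp only [tw, Function.update_of_ne hj']
    · refine le_trans (le_of_eq ?_) (le_iSup _ i1)
      simp only [tw, Function.update_self]

include h1 hgen hn hf in
theorem degree_tw (hi : i1 ≠ i2) : Module.finrank (⨆ i, k⟮tw K f i1 i2 h i⟯ : IntermediateField k F) F =
    ∏ i, Module.finrank k⟮f i⟯ (K i) := by
  rw [iSup_tw]
  set B0 := ⨆ j ∈ Finset.univ.erase i1, k⟮(f j : F)⟯ with hB0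
  set M := ⨆ j ∈ Finset.univ.erase i1, K j with hM
  have hB0M : B0 ≤ M := iSup₂_mono fun j _ => by
    rw [adjoin_simple_le_iff]; exact (f j).2
  have hhM : (h : F) ∈ M := (le_iSup₂_of_le (f := fun j _ => K j) i2 (by simp [hi.symm]) le_rfl) h.2
  have htop : K i1 ⊔ M = ⊤ := by
    rw [eq_top_iff, ← hgen]
    refine iSup_le fun i => ?_
    by_cases hi' : i = i1
    · subst hi'; exact le_sup_left
    · exact le_sup_of_le_right (le_iSup₂_of_le i (by simp [hi']) le_rfl)
  have htr : Transcendental M (f i1 : F) :=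
    transcendental_over_iSup K h1 hgen hn f hf _ i1 (by simp)
  have htr2 : Transcendental M (f i1 + h : F) := by
    intro hal
    apply htr
    have := hal.sub (isAlgebraic_algebraMap (R := M) (A := F) ⟨h, hhM⟩)
    simpa using this
  have LD1 : (K i1).LinearDisjoint M := linearDisjoint_iSup K h1 hgen hn f hf _ i1 (by simp)
  have LD2 : M.LinearDisjoint k⟮(f i1 + h : F)⟯ := by
    have hz : Transcendental k (f i1 + h : F) := htr2.restrictScalars (algebraMap k M).injective
    have := linearDisjoint_of_transcendental k⟮(f i1 + h : F)⟯ M (AdjoinSimple.gen k (f i1 + h : F)) ?_ ?_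
    · exact this.symm
    · have htop2 : k⟮AdjoinSimple.gen k (f i1 + h : F)⟯ = ⊤ := adjoin_gen_eq_top _
      rw [htop2]
      exact ⟨fun x => isAlgebraic_algebraMap (⟨x, trivial⟩ : (⊤ : IntermediateField k k⟮(f i1 + h : F)⟯))⟩
    · rw [AdjoinSimple.coe_gen]; exact htr2
  have hsup : M ⊔ k⟮(f i1 + h : F)⟯ = M ⊔ k⟮(f i1 : F)⟯ := by
    apply le_antisymm
    · apply sup_le le_sup_left
      rw [adjoin_simple_le_iff]
      exact add_mem ((le_sup_right : _ ≤ M ⊔ k⟮(f i1 : F)⟯) (mem_adjoin_simple_self k _))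
        ((le_sup_left : M ≤ _) hhM)
    · apply sup_le le_sup_left
      rw [adjoin_simple_le_iff]
      have := sub_mem ((le_sup_right : _ ≤ M ⊔ k⟮(f i1 + h : F)⟯) (mem_adjoin_simple_self k _))
        ((le_sup_left : M ≤ _) hhM)
      rwa [add_sub_cancel_right] at this
  have halgf : ∀ i, ∀ x ∈ K i, IsAlgebraic k⟮(f i : F)⟯ x := fun i x hx =>
    isAlgebraic_over_adjoin (K i) (h1 i) (f i) (hf i) x hx
  have r1 := relfinrank_mul_relfinrank (A := B0 ⊔ k⟮(f i1 + h : F)⟯) (B := M ⊔ k⟮(f i1 + h : F)⟯)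
    (C := ⊤) (sup_le_sup_right hB0M _) le_top
  have r0 := relfinrank_top_right (B0 ⊔ k⟮(f i1 + h : F)⟯)
  rw [← r0, ← r1]
  have r2 : relfinrank (M ⊔ k⟮(f i1 + h : F)⟯) ⊤ = Module.finrank k⟮f i1⟯ (K i1) := by
    have hle : k⟮(f i1 : F)⟯ ≤ K i1 := by rw [adjoin_simple_le_iff]; exact (f i1).2
    rw [hsup, ← htop, sup_comm M, relfinrank_sup_of_linearDisjoint hle LD1
      ⟨fun x => (isAlgebraic_algebraMap_iff (algebraMap (extendScalars hle) F).injective).1
        (halgf i1 x x.2)⟩, relfinrank_adjoin]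
  have r3 : relfinrank (B0 ⊔ k⟮(f i1 + h : F)⟯) (M ⊔ k⟮(f i1 + h : F)⟯) =
      ∏ j ∈ Finset.univ.erase i1, Module.finrank k⟮f j⟯ (K j) := by
    rw [relfinrank_sup_of_linearDisjoint hB0M LD2
      ⟨fun x => (isAlgebraic_algebraMap_iff (algebraMap (extendScalars hB0M) F).injective).1
        (isAlgebraic_iSup _ (fun j _ => halgf j) x x.2)⟩,
      relfinrank_iSup K h1 hgen hn f hf (fun j => k⟮(f j : F)⟯)
        (fun i => by rw [adjoin_simple_le_iff]; exact (f i).2) halgf]
    exact Finset.prod_congr rfl fun j _ => relfinrank_adjoin (K j) (f j)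
  rw [r2, r3, Finset.prod_erase_mul _ _ (Finset.mem_univ i1)]

include h1 hgen hn hf in
theorem degree_tw' (hi : i1 ≠ i2) (hh : k⟮f i2⟯⟮h⟯ = ⊤) :
    Module.finrank ((⨆ i, k⟮tw K f i1 i2 h i⟯) ⊔ k⟮(h : F)⟯ : IntermediateField k F) F =
    ∏ i ∈ Finset.univ.erase i2, Module.finrank k⟮f i⟯ (K i) := by
  classical
  let A : Fin n → IntermediateField k F := fun i => if i = i2 then K i2 else k⟮(f i : F)⟯
  have hA : (⨆ i, k⟮tw K f i1 i2 h i⟯) ⊔ k⟮(h : F)⟯ = ⨆ i, A i := by
    apply le_antisymm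
    · have hmem2 : (h : F) ∈ ⨆ i, A i := by
        apply (le_iSup A i2)
        simp only [A, if_true]
        exact h.2
      apply sup_le
      · refine iSup_le fun i => ?_
        rw [adjoin_simple_le_iff]
        by_cases hi' : i = i1
        · subst hi'
          simp only [tw, Function.update_self]
          refine add_mem ?_ hmem2
          apply (le_iSup A i)
          simp only [A, if_neg hi]
          exact mem_adjoin_simple_self k _
        · simp only [tw, Function.update_of_ne hi']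
          apply (le_iSup A i)
          simp only [A]
          split_ifs with h3
          · subst h3; exact (f i).2
          · exact mem_adjoin_simple_self k _
      · rw [adjoin_simple_le_iff]
        exact hmem2
    · have hmemh : (h : F) ∈ (⨆ i, k⟮tw K f i1 i2 h i⟯) ⊔ k⟮(h : F)⟯ :=
        (le_sup_right : k⟮(h : F)⟯ ≤ _) (mem_adjoin_simple_self k _)
      have hmemtw : ∀ i, tw K f i1 i2 h i ∈ (⨆ i, k⟮tw K f i1 i2 h i⟯) ⊔ k⟮(h : F)⟯ := fun i =>
        (le_sup_left : (⨆ i, k⟮tw K f i1 i2 h i⟯) ≤ _)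
          ((le_iSup (fun i => k⟮tw K f i1 i2 h i⟯) i) (mem_adjoin_simple_self k _))
      have hmemf : ∀ i, (f i : F) ∈ (⨆ i, k⟮tw K f i1 i2 h i⟯) ⊔ k⟮(h : F)⟯ := by
        intro i
        by_cases hi' : i = i1
        · subst hi'
          have h3 := hmemtw i
          simp only [tw, Function.update_self] at h3
          have h4 := sub_mem h3 hmemh
          rwa [add_sub_cancel_right] at h4
        · have h3 := hmemtw i
          simp only [tw, Function.update_of_ne hi'] at h3
          exact h3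
      refine iSup_le fun i => ?_
      simp only [A]
      split_ifs with h3
      · exact le_of_primitive (K i2) (f i2) h hh _ (hmemf i2) hmemh
      · rw [adjoin_simple_le_iff]
        exact hmemf i
  rw [hA, finrank_iSup K h1 hgen hn f hf A (fun i => by
    simp only [A]
    split_ifs with h3
    · right; rw [h3]
    · left; rfl), ← Finset.mul_prod_erase _ _ (Finset.mem_univ i2)]
  have e1 : relfinrank (A i2) (K i2) = 1 := by
    simp only [A, if_true]
    exact relfinrank_self _
  rw [e1, one_mul]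
  refine Finset.prod_congr rfl fun j hj => ?_
  have hj' : j ≠ i2 := (Finset.mem_erase.1 hj).1
  simp only [A, if_neg hj']
  exact relfinrank_adjoin (K j) (f j)

end

end Pool.Agent.MP_5a3d27_ag
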