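import Pool.Agent.MP_5a3d27_ag.Product

open IntermediateField
open scoped IntermediateField.algebraAdjoinAdjoin TensorProduct

namespace Pool.Agent.MP_5a3d27_ag

/-- A derivation which vanishes at `f` vanishes on everything algebraic over `k(f)`. -/
theorem derivation_eq_zero {k K L : Type*} [Field k] [CharZero k] [Field K] [Field L] [Algebra k K]
    (ρ : K →+* L) (d : K → L) (hadd : ∀ x y, d (x + y) = d x + d y)
    (hmul : ∀ x y, d (x * y) = ρ x * d y + ρ y * d x) (hk : ∀ c : k, d (algebraMap k K c) = 0)
    (f : K) (hf : d f = 0) (halg : Algebra.IsAlgebraic k⟮f⟯ K) (x : K) : d x = 0 := by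
  have h0 : d 0 = 0 := by simpa using hk 0
  have h1 : d 1 = 0 := by simpa using hk 1
  let Z : IntermediateField k K :=
    { carrier := {x | d x = 0}
      mul_mem' := fun {a b} ha hb => by
        simp only [Set.mem_ofPred_eq] at ha hb ⊢
        rw [hmul, ha, hb]; simp
      one_mem' := h1
      add_mem' := fun {a b} ha hb => by
        simp only [Set.mem_ofPred_eq] at ha hb ⊢
        rw [hadd, ha, hb]; simp
      zero_mem' := h0
      algebraMap_mem' := hk
      inv_mem' := fun a ha => by
        simp only [Set.mem_ofPred_eq] at ha ⊢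
        by_cases h : a = 0
        · rw [h, inv_zero, h0]
        · have h2 := hmul a a⁻¹
          rw [mul_inv_cancel₀ h, h1, ha, mul_zero, add_zero] at h2
          rcases mul_eq_zero.1 h2.symm with h3 | h3
          · exact absurd ((map_eq_zero ρ).1 h3) h
          · exact h3 }
  have hZ : k⟮f⟯ ≤ Z := by
    rw [adjoin_simple_le_iff]
    exact hf
  have hZ' : ∀ c : k⟮f⟯, d (c : K) = 0 := fun c => hZ c.2
  have hpoly : ∀ p : Polynomial k⟮f⟯,
      d (Polynomial.aeval x p) = ρ (Polynomial.aeval x (Polynomial.derivative p)) * d x := by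
    intro p
    induction p using Polynomial.induction_on with
    | C a =>
      simp only [Polynomial.aeval_C, Polynomial.derivative_C, map_zero, zero_mul]
      exact hZ' a
    | add p q hp hq => simp only [map_add, hadd, hp, hq, add_mul]
    | monomial n a ih =>
      have e1 : (Polynomial.aeval x) (Polynomial.C a * Polynomial.X ^ (n + 1)) =
          (Polynomial.aeval x) (Polynomial.C a * Polynomial.X ^ n) * x := by
        simp only [map_mul, map_pow, Polynomial.aeval_X, pow_succ]; ring
      rw [e1, hmul, ih]
      have e2 : Polynomial.derivative (Polynomial.C a * Polynomial.X ^ (n + 1)) =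
          Polynomial.derivative (Polynomial.C a * Polynomial.X ^ n) * Polynomial.X +
          Polynomial.C a * Polynomial.X ^ n := by
        rw [pow_succ, ← mul_assoc, Polynomial.derivative_mul, Polynomial.derivative_X, mul_one]
      rw [e2]
      simp only [map_add, map_mul, Polynomial.aeval_X]
      ring
  have hint : IsIntegral k⟮f⟯ x := (halg.isAlgebraic x).isIntegral
  have hsep : (minpoly k⟮f⟯ x).Separable := (minpoly.irreducible hint).separable
  have h2 := hpoly (minpoly k⟮f⟯ x)
  rw [minpoly.aeval, h0] at h2
  have h3 : Polynomial.aeval x (Polynomial.derivative (minpoly k⟮f⟯ x)) ≠ 0 :=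
    hsep.aeval_derivative_ne_zero (minpoly.aeval _ _)
  rcases mul_eq_zero.1 h2.symm with h4 | h4
  · exact absurd ((map_eq_zero ρ).1 h4) h3
  · exact h4

/-- `d/df` exists on a finite separable extension of `k(f)`. -/
theorem exists_derivation {k K : Type*} [Field k] [CharZero k] [Field K] [Algebra k K]
    (f : K) (hf : Transcendental k f) (halg : Algebra.IsAlgebraic k⟮f⟯ K) :
    ∃ D : Derivation k K K, D f = 1 := by
  let φ : Polynomial k →ₐ[k] K := Polynomial.aeval f
  have hφ : Function.Injective φ := transcendental_iff_injective.1 hf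
  letI : Algebra (Polynomial k) K := φ.toRingHom.toAlgebra
  haveI : IsScalarTower k (Polynomial k) K := IsScalarTower.of_algebraMap_eq fun x => by
    change _ = φ (Polynomial.C x)
    simp [φ]
  let ψ : RatFunc k →ₐ[k] K := (val k⟮f⟯).comp (RatFunc.algEquivOfTranscendental f hf).toAlgHom
  letI : Algebra (RatFunc k) K := ψ.toRingHom.toAlgebra
  haveI : IsScalarTower (Polynomial k) (RatFunc k) K := IsScalarTower.of_algebraMap_eq fun p => by
    change φ p = ψ (algebraMap _ _ p)
    simp [φ, ψ]
  haveI : Algebra.IsAlgebraic (RatFunc k) K := by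
    refine Algebra.IsAlgebraic.of_ringHom_of_comp_eq (RatFunc.algEquivOfTranscendental f hf).toRingHom
      (RingHom.id K) (RatFunc.algEquivOfTranscendental f hf).surjective Function.injective_id ?_
    rfl
  haveI : CharZero (RatFunc k) := charZero_of_injective_algebraMap (algebraMap k (RatFunc k)).injective
  haveI : Algebra.FormallyEtale (RatFunc k) K := Algebra.FormallyEtale.of_isSeparable _ _
  haveI : Algebra.FormallyEtale (Polynomial k) (RatFunc k) :=
    Algebra.FormallyEtale.of_isLocalization (nonZeroDivisors (Polynomial k))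
  haveI : Algebra.FormallyEtale (Polynomial k) K :=
    Algebra.FormallyEtale.comp (Polynomial k) (RatFunc k) K
  let d0 : Derivation k (Polynomial k) K := Polynomial.mkDerivation k (1 : K)
  let e := KaehlerDifferential.tensorKaehlerEquivOfFormallyEtale k (Polynomial k) K
  let φ1 : K ⊗[Polynomial k] Ω[Polynomial k⁄k] →ₗ[K] K :=
    LinearMap.liftBaseChange K d0.liftKaehlerDifferential
  refine ⟨(φ1 ∘ₗ e.symm.toLinearMap).compDer (KaehlerDifferential.D k K), ?_⟩
  have h1 : f = algebraMap (Polynomial k) K Polynomial.X := by
    change f = φ Polynomial.X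
    simp [φ]
  have h2 := KaehlerDifferential.tensorKaehlerEquivOfFormallyEtale_symm_D_algebraMap k
    (Polynomial k) K Polynomial.X
  change φ1 (e.symm (KaehlerDifferential.D k K f)) = 1
  rw [h1, h2, LinearMap.liftBaseChange_tmul, Derivation.liftKaehlerDifferential_comp_D]
  simp [d0]

/-- If `K` is algebraic over `k(f)`, `f` transcendental, then `trdeg = 1`. -/
theorem trdeg_eq_one {k K : Type*} [Field k] [Field K] [Algebra k K]
    (f : K) (hf : Transcendental k f) (halg : Algebra.IsAlgebraic k⟮f⟯ K) :
    Algebra.trdeg k K = 1 := by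
  have h1 : AlgebraicIndependent k (fun _ : Unit => f) := by
    rw [algebraicIndependent_unique_type_iff]
    exact hf
  have h2 : IsTranscendenceBasis k (fun _ : Unit => f) := by
    rw [h1.isTranscendenceBasis_iff_isAlgebraic, Set.range_const]
    exact (IsFractionRing.comap_isAlgebraic_iff (A := Algebra.adjoin k {f})
        (K := k⟮f⟯) (C := K)).2 halg
  simpa using h2.lift_cardinalMk_eq_trdeg.symm

/-- The field of constants of `d/df` is `k`. -/
theorem ker_derivation {k K : Type*} [Field k] [IsAlgClosed k] [CharZero k] [Field K]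
    [Algebra k K] (f : K) (hf : Transcendental k f) (halg : Algebra.IsAlgebraic k⟮f⟯ K)
    (D : Derivation k K K) (hD : D f = 1) (v : K) (hv : D v = 0) :
    ∃ c : k, algebraMap k K c = v := by
  by_cases h : IsAlgebraic k v
  · exact minpoly.mem_range_of_degree_eq_one k v
      (IsAlgClosed.degree_eq_one_of_irreducible k (minpoly.irreducible h.isIntegral))
  · exfalso
    have h1 := isAlgebraic_of_trdeg_one (trdeg_eq_one f hf halg) h
    have h2 := derivation_eq_zero (RingHom.id K) D (fun x y => D.map_add x y)
      (fun x y => by simp [D.leibniz]) (fun c => D.map_algebraMap c) v hv h1 f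
    rw [hD] at h2
    exact one_ne_zero h2

end Pool.Agent.MP_5a3d27_ag
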