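import Pool.Agent.MP_5a3d27_ag.Product

open IntermediateField

namespace Pool.Agent.MP_5a3d27_ag

section Count

/-- Ring homs extending a given one. -/
def EmbSet {A B Ω : Type*} [Field A] [Field B] [Field Ω] [Algebra A B] (j : A →+* Ω) :
    Set (B →+* Ω) := {τ | τ.comp (algebraMap A B) = j}

variable {A B Ω : Type*} [Field A] [CharZero A] [Field B] [Field Ω] [IsAlgClosed Ω] [Algebra A B]
  [FiniteDimensional A B]

/-- Extensions are algebra homs. -/
def embEquiv (j : A →+* Ω) : (letI := j.toAlgebra; B →ₐ[A] Ω) ≃ EmbSet (B := B) j :=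
  letI := j.toAlgebra
  { toFun := fun τ => ⟨τ.toRingHom, τ.comp_algebraMap⟩
    invFun := fun τ => { τ.1 with commutes' := fun r => RingHom.congr_fun τ.2 r }
    left_inv := fun τ => rfl
    right_inv := fun τ => rfl }

instance (j : A →+* Ω) : Finite (EmbSet (B := B) j) := by
  letI := j.toAlgebra
  exact Finite.of_equiv _ (embEquiv (B := B) j)

theorem card_embSet (j : A →+* Ω) : Nat.card (EmbSet (B := B) j) = Module.finrank A B := by
  letI := j.toAlgebra
  rw [← Nat.card_congr (embEquiv (B := B) j), Nat.card_eq_fintype_card]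
  exact AlgHom.card A B Ω

end Count

section PartA

variable {k F : Type*} [Field k] [IsAlgClosed k] [CharZero k] [Field F] [Algebra k F] {n : ℕ}

lemma relfinrank_adjoin (K : IntermediateField k F) (g : K) :
    relfinrank k⟮(g : F)⟯ K = Module.finrank k⟮g⟯ K := by
  have h1 := finrank_comap (A := k⟮(g : F)⟯) K.val
  have h2 : (k⟮(g : F)⟯).comap K.val = k⟮g⟯ := by
    have h3 : k⟮(g : F)⟯ = (k⟮g⟯).map K.val := by
      rw [adjoin_map]; simp
    rw [h3]
    exact comap_map K.val _
  rw [h2] at h1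
  rw [h1]
  simp [fieldRange_val]

/-- Degree formula for `[F : k(g_1, ..., g_n)]` and mixed versions. -/
theorem finrank_iSup (K : Fin n → IntermediateField k F)
    (h1 : ∀ i, Algebra.trdeg k (K i) = 1) (hgen : ⨆ i, K i = ⊤) (hn : Algebra.trdeg k F = n)
    (g : ∀ i, K i) (hg : ∀ i, Transcendental k (g i)) (A : Fin n → IntermediateField k F)
    (hA : ∀ i, A i = k⟮(g i : F)⟯ ∨ A i = K i) :
    Module.finrank (⨆ i, A i : IntermediateField k F) F = ∏ i, relfinrank (A i) (K i) := by
  have hAK : ∀ i, A i ≤ K i := by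
    intro i
    rcases hA i with h | h
    · rw [h, adjoin_simple_le_iff]; exact (g i).2
    · rw [h]
  have halg : ∀ i, ∀ x ∈ K i, IsAlgebraic (A i) x := by
    intro i x hx
    rcases hA i with h | h
    · have h3 := (isAlgebraic_of_trdeg_one (h1 i) (hg i)).isAlgebraic ⟨x, hx⟩
      have hle : ∀ y : k⟮g i⟯, ((y : K i) : F) ∈ A i := by
        rintro ⟨y, hy⟩
        have : (k⟮g i⟯).map (K i).val ≤ A i := by
          rw [h, adjoin_map]; simp
        exact this ⟨y, hy, rfl⟩
      let j : k⟮g i⟯ →+* A i :=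
        { toFun := fun y => ⟨((y : K i) : F), hle y⟩
          map_one' := rfl
          map_mul' := fun _ _ => rfl
          map_zero' := rfl
          map_add' := fun _ _ => rfl }
      exact h3.ringHom_of_comp_eq j (K i).val.toRingHom j.injective rfl
    · rw [h]
      exact isAlgebraic_algebraMap (⟨x, hx⟩ : K i)
  have h2 := relfinrank_iSup K h1 hgen hn g hg A hAK halg Finset.univ
  simp only [Finset.mem_univ, iSup_pos, hgen] at h2
  rw [relfinrank_top_right] at h2
  exact h2

/-- Two ring homs agreeing on all `K i` agree. -/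
theorem ext_of_iSup {Ω : Type*} [Field Ω] (K : Fin n → IntermediateField k F)
    (hgen : ⨆ i, K i = ⊤) (τ τ' : F →+* Ω) (hk : ∀ c : k, τ (algebraMap k F c) = τ' (algebraMap k F c))
    (h : ∀ i, ∀ x ∈ K i, τ x = τ' x) : τ = τ' := by
  let Z : IntermediateField k F :=
    { carrier := {x | τ x = τ' x}
      mul_mem' := fun {a b} ha hb => by
        simp only [Set.mem_ofPred_eq] at ha hb ⊢
        rw [map_mul, map_mul, ha, hb]
      one_mem' := by simp
      add_mem' := fun {a b} ha hb => by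
        simp only [Set.mem_ofPred_eq] at ha hb ⊢
        rw [map_add, map_add, ha, hb]
      zero_mem' := by simp
      algebraMap_mem' := hk
      inv_mem' := fun a ha => by
        simp only [Set.mem_ofPred_eq] at ha ⊢
        rw [map_inv₀, map_inv₀, ha] }
  have hZ : (⊤ : IntermediateField k F) ≤ Z := by
    rw [← hgen]
    exact iSup_le fun i x hx => h i x hx
  ext x
  exact hZ (show x ∈ (⊤ : IntermediateField k F) from trivial)

theorem many_moved {Ω : Type*} [Field Ω] [IsAlgClosed Ω] (K : Fin n → IntermediateField k F)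
    (hfg : ∀ i, Algebra.EssFiniteType k (K i))
    (h1 : ∀ i, Algebra.trdeg k (K i) = 1) (hgen : ⨆ i, K i = ⊤) (hn : Algebra.trdeg k F = n)
    (g : ∀ i, K i) (hg : ∀ i, Transcendental k (g i)) (E : IntermediateField k F)
    (hE : E = ⨆ i, k⟮(g i : F)⟯) (τ₀ : F →+* Ω) (σ : Ω →+* Ω)
    (hσ : ∀ x ∈ E, σ (τ₀ x) = τ₀ x) (τ : F →+* Ω) (hτ : ∀ x ∈ E, τ x = τ₀ x)
    (hmove : ∃ x, σ (τ x) ≠ τ x) :
    ∃ i, 2 * ∏ j ∈ Finset.univ.erase i, Module.finrank k⟮g j⟯ (K j) ≤
      Nat.card {τ' : F →+* Ω // (∀ x ∈ E, τ' x = τ₀ x) ∧ ∃ x, σ (τ' x) ≠ τ' x} := by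
  classical
  have hfd : ∀ i, FiniteDimensional k⟮g i⟯ (K i) := fun i =>
    finiteDimensional_of_trdeg_one (h1 i) (hg i)
  have hdeg : Module.finrank E F = ∏ i, Module.finrank k⟮g i⟯ (K i) := by
    rw [hE, finrank_iSup K h1 hgen hn g hg (fun i => k⟮(g i : F)⟯) (fun i => Or.inl rfl)]
    exact Finset.prod_congr rfl fun i _ => relfinrank_adjoin (K i) (g i)
  have hpos : 0 < Module.finrank E F := by
    rw [hdeg]
    exact Finset.prod_pos fun i _ => Module.finrank_pos
  have hfdE : FiniteDimensional E F := Module.finite_of_finrank_pos hpos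
  let S := {τ : F →+* Ω // ∀ x ∈ E, τ x = τ₀ x}
  let jE : E →+* Ω := τ₀.comp (algebraMap E F)
  let eS : EmbSet (B := F) jE ≃ S :=
    { toFun := fun τ => ⟨τ.1, fun x hx => RingHom.congr_fun τ.2 ⟨x, hx⟩⟩
      invFun := fun τ => ⟨τ.1, RingHom.ext fun x => τ.2 x x.2⟩
      left_inv := fun τ => rfl
      right_inv := fun τ => rfl }
  have hcardS : Nat.card S = Module.finrank E F := by
    rw [← card_embSet (A := E) (B := F) jE]
    exact (Nat.card_congr eS).symm
  haveI : Finite S := Finite.of_equiv _ eS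
  let ji : ∀ i, k⟮g i⟯ →+* Ω := fun i =>
    (τ₀.comp ((K i).val : K i →+* F)).comp (algebraMap k⟮g i⟯ (K i))
  let Si : Fin n → Type _ := fun i => EmbSet (B := K i) (ji i)
  have hcardSi : ∀ i, Nat.card (Si i) = Module.finrank k⟮g i⟯ (K i) := fun i => card_embSet (ji i)
  have hmemE : ∀ i, ∀ y : k⟮g i⟯, ((y : K i) : F) ∈ E := by
    rintro i ⟨y, hy⟩
    have h2 : (k⟮g i⟯).map (K i).val ≤ E := by
      rw [adjoin_map, hE]
      refine le_trans (le_of_eq ?_) (le_iSup (fun i => k⟮(g i : F)⟯) i)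
      simp
    exact h2 ⟨y, hy, rfl⟩
  haveI : ∀ i, Finite (Si i) := fun i => inferInstanceAs (Finite (EmbSet (B := K i) (ji i)))
  letI : ∀ i, Fintype (Si i) := fun i => Fintype.ofFinite _
  letI : Fintype S := Fintype.ofFinite _
  let res : S → ∀ i, Si i := fun τ i => ⟨τ.1.comp ((K i).val : K i →+* F), by
    refine RingHom.ext fun y => ?_
    exact τ.2 _ (hmemE i y)⟩
  have hres : ∀ (τ : S) i (x : K i), (res τ i).1 x = τ.1 x := fun _ _ _ => rfl
  have hinj : Function.Injective res := by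
    intro τ τ' h
    apply Subtype.ext
    apply ext_of_iSup K hgen
    · intro c
      rw [τ.2 _ (E.algebraMap_mem c), τ'.2 _ (E.algebraMap_mem c)]
    · intro i x hx
      rw [← hres τ i ⟨x, hx⟩, ← hres τ' i ⟨x, hx⟩, h]
  have hbij : Function.Bijective res := by
    rw [Fintype.bijective_iff_injective_and_card]
    refine ⟨hinj, ?_⟩
    rw [Fintype.card_pi, ← Nat.card_eq_fintype_card, hcardS, hdeg]
    refine Finset.prod_congr rfl fun i _ => ?_
    rw [← hcardSi i, Nat.card_eq_fintype_card]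
  let e : S ≃ ∀ i, Si i := Equiv.ofBijective res hbij
  -- the moved coordinate
  let τS : S := ⟨τ, hτ⟩
  let στS : S := ⟨σ.comp τ, fun x hx => by rw [RingHom.comp_apply, hτ x hx, hσ x hx]⟩
  have hne : στS ≠ τS := by
    intro h
    obtain ⟨x, hx⟩ := hmove
    exact hx (RingHom.congr_fun (congrArg Subtype.val h) x)
  obtain ⟨i, hi⟩ : ∃ i, res στS i ≠ res τS i := by
    by_contra hcon
    push Not at hcon
    exact hne (hinj (funext hcon))
  obtain ⟨x, hx⟩ : ∃ x : K i, σ (τ x) ≠ τ x := by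
    by_contra hcon
    push Not at hcon
    exact hi (Subtype.ext (RingHom.ext hcon))
  refine ⟨i, ?_⟩
  let t : ∀ j, Finset (Si j) := Function.update (fun j => Finset.univ) i {res τS i, res στS i}
  have ht : (Fintype.piFinset t).card = 2 * ∏ j ∈ Finset.univ.erase i, Module.finrank k⟮g j⟯ (K j) := by
    rw [Fintype.card_piFinset, ← Finset.mul_prod_erase _ _ (Finset.mem_univ i)]
    congr 1
    · simp only [t, Function.update_self]
      rw [Finset.card_pair (Ne.symm hi)]
    · refine Finset.prod_congr rfl fun j hj => ?_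
      have hji : j ≠ i := (Finset.mem_erase.1 hj).1
      simp only [t, Function.update_of_ne hji]
      rw [Finset.card_univ, ← Nat.card_eq_fintype_card, hcardSi j]
  rw [← ht]
  haveI : Finite {τ' : F →+* Ω // (∀ x ∈ E, τ' x = τ₀ x) ∧ ∃ x, σ (τ' x) ≠ τ' x} := by
    let q : {τ' : F →+* Ω // (∀ x ∈ E, τ' x = τ₀ x) ∧ ∃ x, σ (τ' x) ≠ τ' x} → S :=
      fun τ' => ⟨τ'.1, τ'.2.1⟩
    exact Finite.of_injective q fun a b h => by
      have h2 : (q a).1 = (q b).1 := congrArg Subtype.val h
      exact Subtype.ext h2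
  have hmoved : ∀ a ∈ Fintype.piFinset t, ∃ x, σ ((e.symm a).1 x) ≠ (e.symm a).1 x := by
    intro a ha
    have h2 := (Fintype.mem_piFinset.1 ha) i
    simp only [t, Function.update_self, Finset.mem_insert, Finset.mem_singleton] at h2
    have h3 : res (e.symm a) i = a i := congrFun (e.apply_symm_apply a) i
    have h4 : ∀ y : K i, (e.symm a).1 (y : F) = (a i).1 y := by
      intro y
      rw [← h3]
      rfl
    rcases h2 with h2 | h2
    · refine ⟨x, ?_⟩
      rw [h4, h2]
      exact hx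
    · refine ⟨x, ?_⟩
      rw [h4, h2]
      intro h5
      exact hx (σ.injective h5)
  let q : Fintype.piFinset t → {τ' : F →+* Ω // (∀ x ∈ E, τ' x = τ₀ x) ∧ ∃ x, σ (τ' x) ≠ τ' x} :=
    fun a => ⟨(e.symm a.1).1, (e.symm a.1).2, hmoved a.1 a.2⟩
  have hq : Function.Injective q := by
    intro a b h
    have h3 : (q a).1 = (q b).1 := congrArg Subtype.val h
    have h2 : e.symm a.1 = e.symm b.1 := Subtype.ext h3
    exact Subtype.ext (e.symm.injective h2)
  have := Nat.card_le_card_of_injective q hq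
  rwa [Nat.card_eq_fintype_card, Fintype.card_coe] at this

end PartA

end Pool.Agent.MP_5a3d27_ag
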