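import Pool.Agent.MP_5a3d27_ag.Defs

open IntermediateField TensorProduct

namespace Pool.Agent.MP_5a3d27_ag

section Inst

variable {n : ℕ} (K : Fin n → Type) [∀ i, Field (K i)] [∀ i, Algebra ℂ (K i)]

instance : IsScalarTower ℂ (TensorRing K) (ProductField K) :=
  (inferInstance : IsScalarTower ℂ (TensorRing K) (FractionRing (TensorRing K)))

instance : IsFractionRing (TensorRing K) (ProductField K) :=
  (inferInstance : IsFractionRing (TensorRing K) (FractionRing (TensorRing K)))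

/-- The pull back as a homomorphism. -/
noncomputable def prHom (i : Fin n) : K i →ₐ[ℂ] ProductField K :=
  (IsScalarTower.toAlgHom ℂ (TensorRing K) (ProductField K)).comp
    (PiTensorProduct.singleAlgHom (R := ℂ) i)

end Inst

section Proof

theorem exists_transcendental {K : Type} [Field K] [Algebra ℂ K] (hK : IsCurveField K) :
    ∃ f : K, Transcendental ℂ f := by
  by_contra hcon
  push Not at hcon
  have : Algebra.IsAlgebraic ℂ K := ⟨fun x => by simpa [Transcendental] using hcon x⟩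
  have h2 := _root_.trdeg_eq_zero (R := ℂ) (A := K)
  rw [hK.trdeg] at h2
  exact one_ne_zero h2

theorem gonality_spec {K : Type} [Field K] [Algebra ℂ K] (hK : IsCurveField K) :
    ∃ f : K, Transcendental ℂ f ∧ Module.finrank ℂ⟮f⟯ K = gonality K := by
  obtain ⟨f, hf⟩ := exists_transcendental hK
  exact Nat.sInf_mem (s := {d : ℕ | ∃ f : K, Transcendental ℂ f ∧ Module.finrank ℂ⟮f⟯ K = d})
    ⟨_, f, hf, rfl⟩

theorem gonality_le {K : Type} [Field K] [Algebra ℂ K] (f : K) (hf : Transcendental ℂ f) :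
    gonality K ≤ Module.finrank ℂ⟮f⟯ K := Nat.sInf_le ⟨f, hf, rfl⟩

theorem finrank_map {k A B : Type*} [Field k] [Field A] [Field B] [Algebra k A] [Algebra k B]
    (e : A ≃ₐ[k] B) (f : A) : Module.finrank k⟮e f⟯ B = Module.finrank k⟮f⟯ A := by
  have h3 := relfinrank_map_map (A := k⟮f⟯) (B := (⊤ : IntermediateField k A))
    (f := (e : A →ₐ[k] B))
  have h4 : (⊤ : IntermediateField k A).map (e : A →ₐ[k] B) = ⊤ := by
    rw [← AlgHom.fieldRange_eq_map]
    exact AlgEquiv.fieldRange_eq_top e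
  have h5 : (k⟮f⟯).map (e : A →ₐ[k] B) = k⟮e f⟯ := by
    rw [adjoin_map]; simp
  rw [h4, h5, relfinrank_top_right, relfinrank_top_right] at h3
  exact h3

theorem adjoin_X_eq_top (n : ℕ) : IntermediateField.adjoin ℂ (Set.range fun i : Fin n =>
    algebraMap (MvPolynomial (Fin n) ℂ) (FractionRing (MvPolynomial (Fin n) ℂ))
      (MvPolynomial.X i)) = ⊤ := by
  rw [eq_top_iff]
  intro z _
  obtain ⟨a, b, _, rfl⟩ := IsFractionRing.div_surjective (A := MvPolynomial (Fin n) ℂ) z
  have h : ∀ p : MvPolynomial (Fin n) ℂ, algebraMap _ (FractionRing (MvPolynomial (Fin n) ℂ)) p ∈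
      IntermediateField.adjoin ℂ (Set.range fun i : Fin n =>
        algebraMap (MvPolynomial (Fin n) ℂ) (FractionRing (MvPolynomial (Fin n) ℂ))
          (MvPolynomial.X i)) := by
    intro p
    induction p using MvPolynomial.induction_on with
    | C a =>
      have : algebraMap (MvPolynomial (Fin n) ℂ) (FractionRing (MvPolynomial (Fin n) ℂ))
          (MvPolynomial.C a) = algebraMap ℂ (FractionRing (MvPolynomial (Fin n) ℂ)) a :=
        (IsScalarTower.algebraMap_apply ℂ (MvPolynomial (Fin n) ℂ)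
          (FractionRing (MvPolynomial (Fin n) ℂ)) a).symm
      rw [this]
      exact IntermediateField.algebraMap_mem _ a
    | add p q hp hq => rw [map_add]; exact add_mem hp hq
    | mul_X p i hp =>
      rw [map_mul]
      exact mul_mem hp (subset_adjoin ℂ _ ⟨i, rfl⟩)
  exact div_mem (h a) (h b)

theorem adjoin_coord_eq_top (n : ℕ) :
    IntermediateField.adjoin ℂ (Set.range fun i : Fin n => coord i) = ⊤ := adjoin_X_eq_top n

theorem fieldRange_eq {n : ℕ} {K : Fin n → Type} [∀ i, Field (K i)] [∀ i, Algebra ℂ (K i)]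
    (ψ : RationalMap K) : ψ.fieldRange = ⨆ i, ℂ⟮ψ (coord i)⟯ := by
  rw [AlgHom.fieldRange_eq_map, ← adjoin_coord_eq_top, adjoin_map, iSup_adjoin_eq]
  congr 1
  rw [← Set.range_comp]
  rfl

/-- The main theorem for an arbitrary model `F` of the function field. -/
theorem exists_twisted {n : ℕ} (K : Fin n → Type) [∀ i, Field (K i)] [∀ i, Algebra ℂ (K i)]
    (hK : ∀ i, IsCurveField (K i)) (F : Type) [Field F] [Algebra ℂ F]
    [Algebra (⨂[ℂ] i, K i) F] [IsScalarTower ℂ (⨂[ℂ] i, K i) F]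
    [IsFractionRing (⨂[ℂ] i, K i) F] (i₁ i₂ : Fin n) (hne : i₁ ≠ i₂)
    (h₁ : 2 ≤ gonality (K i₁)) (h₂ : 2 ≤ gonality (K i₂)) :
    ∃ t : Fin n → F, AlgebraicIndependent ℂ t ∧
      Module.finrank (⨆ i, ℂ⟮t i⟯ : IntermediateField ℂ F) F = ∏ i, gonality (K i) ∧
      ∀ g : ∀ i, K i, (∀ i, Transcendental ℂ (g i)) → ∀ α : F ≃ₐ[ℂ] F,
        (⨆ i, ℂ⟮algebraMap (⨂[ℂ] i, K i) F
          (PiTensorProduct.tprod ℂ (Pi.mulSingle i (g i)))⟯).map (α : F →ₐ[ℂ] F) ≠
        ⨆ i, ℂ⟮t i⟯ := by
  classical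
  let K' : Fin n → IntermediateField ℂ F := fun i => (emb (k := ℂ) K F i).fieldRange
  let e : ∀ i, K i ≃ₐ[ℂ] K' i := fun i => AlgEquiv.ofInjectiveField _
  have hfg : ∀ i, Algebra.EssFiniteType ℂ (K' i) := fun i => by
    have h := fg_top_iff.1 (hK i).fg
    exact Algebra.EssFiniteType.of_surjective (e i).toAlgHom (e i).surjective
  have htr : ∀ i, Algebra.trdeg ℂ (K' i) = 1 := fun i =>
    trdeg_fieldRange K F i (hK i).trdeg
  have hgen : ⨆ i, K' i = ⊤ := iSup_emb K F
  have hn : Algebra.trdeg ℂ F = n := trdeg_product K F fun i => (hK i).trdeg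
  choose f hf hfd using fun i => gonality_spec (hK i)
  have htrans : ∀ i (x : K i), Transcendental ℂ x → Transcendental ℂ (e i x) := fun i x hx h =>
    hx ((isAlgebraic_algHom_iff (e i).toAlgHom (e i).injective).1 h)
  have hfd' : ∀ i, Module.finrank ℂ⟮e i (f i)⟯ (K' i) = gonality (K i) := fun i => by
    rw [finrank_map, hfd]
  have hmin : ∀ i, ∀ g : K' i, Transcendental ℂ g →
      gonality (K i) ≤ Module.finrank ℂ⟮g⟯ (K' i) := by
    intro i g hg
    have h3 : Transcendental ℂ ((e i).symm g) := fun h =>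
      hg ((isAlgebraic_algHom_iff (e i).symm.toAlgHom (e i).symm.injective).1 h)
    rw [← finrank_map (e i).symm g]
    exact gonality_le _ h3
  -- choose the two factors
  obtain ⟨m, -, hm⟩ := Finset.exists_max_image Finset.univ (fun i => gonality (K i))
    ⟨i₁, Finset.mem_univ _⟩
  obtain ⟨l, hlm, hl⟩ : ∃ l, l ≠ m ∧ 2 ≤ gonality (K l) := by
    by_cases h : i₁ = m
    · exact ⟨i₂, fun h' => hne (h.trans h'.symm), h₂⟩
    · exact ⟨i₁, h, h₁⟩
  obtain ⟨t, htind, htdeg, htne⟩ := main_exists K' hfg htr hgen hn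
    (fun i => gonality (K i)) (fun i => e i (f i)) (fun i => htrans i _ (hf i)) hfd' hmin l m hlm hl
    (fun i => hm i (Finset.mem_univ i))
  exact ⟨t, htind, htdeg, fun g hg α => htne (fun i => e i (g i)) (fun i => htrans i _ (hg i)) α⟩

end Proof

end Pool.Agent.MP_5a3d27_ag
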