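import Pool.Agent.MP_5a3d27_ag.Ramify3

open IntermediateField Polynomial
open scoped IntermediateField.algebraAdjoinAdjoin

attribute [-instance] HahnSeries.powerSeriesAlgebra

namespace Pool.Agent.MP_5a3d27_ag

/-- Hensel: a monic polynomial over `N⟦X⟧` with separable reduction has all its roots in
`N⟦X⟧`. -/
theorem root_mem_powerSeries {N Ω : Type*} [Field N] [IsAlgClosed N] [Field Ω]
    (g : PowerSeries N →+* Ω) (Q : Polynomial (PowerSeries N)) (hQ : Q.Monic)
    (hsep : (Q.map (PowerSeries.constantCoeff (R := N))).Separable) (x : Ω)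
    (hx : (Q.map g).eval x = 0) : ∃ a : PowerSeries N, g a = x := by
  classical
  set Q0 := Q.map (PowerSeries.constantCoeff (R := N)) with hQ0
  have hQ0m : Q0.Monic := hQ.map _
  have hdeg : Q0.natDegree = Q.natDegree := hQ.natDegree_map _
  have hdom : IsDomain (PowerSeries N) := inferInstance
  have key : ∀ β ∈ Q0.roots, ∃ a : PowerSeries N, Q.IsRoot a ∧ PowerSeries.constantCoeff a = β := by
    intro β hβ
    have hβ' : Q0.eval β = 0 := (mem_roots'.1 hβ).2
    have h1 : Q.eval (PowerSeries.C β) ∈ (Ideal.span {PowerSeries.X} : Ideal (PowerSeries N)) := by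
      rw [Ideal.mem_span_singleton, PowerSeries.X_dvd_iff]
      have : PowerSeries.constantCoeff (Q.eval (PowerSeries.C β)) =
          Q0.eval (PowerSeries.constantCoeff (PowerSeries.C β)) := by
        rw [hQ0, eval_map, eval₂_at_apply]
      rw [this, PowerSeries.constantCoeff_C, hβ']
    have h2 : IsUnit (Ideal.Quotient.mk (Ideal.span {PowerSeries.X} : Ideal (PowerSeries N))
        (Q.derivative.eval (PowerSeries.C β))) := by
      apply IsUnit.map
      rw [PowerSeries.isUnit_iff_constantCoeff]
      have : PowerSeries.constantCoeff (Q.derivative.eval (PowerSeries.C β)) =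
          Q0.derivative.eval (PowerSeries.constantCoeff (PowerSeries.C β)) := by
        rw [hQ0, derivative_map, eval_map, eval₂_at_apply]
      rw [this, PowerSeries.constantCoeff_C]
      have h3 := hsep.eval₂_derivative_ne_zero (RingHom.id N) (x := β) (by simpa [eval₂_id] using hβ')
      rw [eval₂_id] at h3
      exact h3.isUnit
    obtain ⟨a, ha, ha'⟩ := HenselianRing.is_henselian (I := Ideal.span {(PowerSeries.X : PowerSeries N)})
      Q hQ (PowerSeries.C β) h1 h2
    refine ⟨a, ha, ?_⟩
    rw [Ideal.mem_span_singleton, PowerSeries.X_dvd_iff, map_sub, PowerSeries.constantCoeff_C,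
      sub_eq_zero] at ha'
    exact ha'
  have hcard : Q.natDegree ≤ Q.roots.toFinset.card := by
    rw [← hdeg, ← splits_iff_card_roots.1 (IsAlgClosed.splits Q0),
      ← Multiset.toFinset_card_of_nodup (nodup_roots hsep)]
    apply Finset.card_le_card_of_surjOn (PowerSeries.constantCoeff (R := N))
    intro β hβ
    obtain ⟨a, ha, ha'⟩ := key β (by simpa using hβ)
    refine ⟨a, ?_, ha'⟩
    simp only [Finset.mem_coe, Multiset.mem_toFinset, mem_roots', ne_eq]
    exact ⟨hQ.ne_zero, ha⟩
  have hcard2 : Q.roots.card = Q.natDegree := by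
    apply le_antisymm (card_roots' Q)
    exact hcard.trans (Multiset.toFinset_card_le _)
  have hprod := prod_multiset_X_sub_C_of_monic_of_roots_card_eq hQ hcard2
  rw [← hprod, Polynomial.map_multiset_prod, eval_multiset_prod, Multiset.prod_eq_zero_iff] at hx
  simp only [Multiset.map_map, Multiset.mem_map, Function.comp_apply] at hx
  obtain ⟨a, -, ha⟩ := hx
  refine ⟨a, ?_⟩
  rw [Polynomial.map_sub, map_X, map_C, eval_sub, eval_X, eval_C, sub_eq_zero] at ha
  exact ha.symm

section Good

variable {k K N : Type*} [Field k] [CharZero k] [Field K] [Algebra k K] [Field N]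
  [Algebra k N]

/-- Existence of a monic polynomial `P` over `k[t]` whose root generates `K` over `k(f)` and
which is separable away from the zeros of some `r`. -/
theorem exists_generator {f : K} (hf : Transcendental k f) [FiniteDimensional k⟮f⟯ K] :
    ∃ (w : K) (P : Polynomial (Polynomial k)) (r : Polynomial k), P.Monic ∧ r ≠ 0 ∧
      P.eval₂ (aeval f : k[X] →ₐ[k] K).toRingHom w = 0 ∧
      (∀ T : IntermediateField k K, f ∈ T → w ∈ T → T = ⊤) ∧
      ∃ A B : Polynomial (Polynomial k), A * P + B * derivative P = C r := by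
  obtain ⟨w0, hw0⟩ := Field.exists_primitive_element k⟮f⟯ K
  let φ : Polynomial k →ₐ[k] K := Polynomial.aeval f
  have hφ : Function.Injective φ := transcendental_iff_injective.1 hf
  letI : Algebra (Polynomial k) K := φ.toRingHom.toAlgebra
  let ψ : RatFunc k →ₐ[k] K := (val k⟮f⟯).comp (RatFunc.algEquivOfTranscendental f hf).toAlgHom
  letI : Algebra (RatFunc k) K := ψ.toRingHom.toAlgebra
  haveI : IsScalarTower (Polynomial k) (RatFunc k) K := IsScalarTower.of_algebraMap_eq fun p => by
    change φ p = ψ (algebraMap _ _ p)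
    simp [φ, ψ]
  haveI : CharZero (RatFunc k) :=
    charZero_of_injective_algebraMap (algebraMap k (RatFunc k)).injective
  have hal : IsAlgebraic (Polynomial k) w0 :=
    isAlgebraic_poly_of_adjoin f w0 (Algebra.IsAlgebraic.isAlgebraic w0)
  obtain ⟨q, hq0, hint⟩ := hal.exists_integral_multiple
  rw [Algebra.smul_def] at hint
  have hqf : (algebraMap k[X] K q) = aeval f q := rfl
  have hq1 : aeval f q ≠ 0 := fun h => hq0 (transcendental_iff.1 hf q h)
  set w : K := algebraMap k[X] K q * w0 with hw
  have hminp := minpoly.isIntegrallyClosed_eq_field_fractions' (RatFunc k) hint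
  have hintR : IsIntegral (RatFunc k) w := hint.tower_top
  have hsep : (minpoly (RatFunc k) w).Separable := (minpoly.irreducible hintR).separable
  obtain ⟨a, b, hab⟩ := hsep
  rw [hminp] at hab
  obtain ⟨ba, hba, hba'⟩ := IsLocalization.integerNormalization_spec (nonZeroDivisors k[X]) a
  obtain ⟨bb, hbb, hbb'⟩ := IsLocalization.integerNormalization_spec (nonZeroDivisors k[X]) b
  refine ⟨w, minpoly k[X] w, ba * bb, minpoly.monic hint,
    mul_ne_zero (nonZeroDivisors.ne_zero hba) (nonZeroDivisors.ne_zero hbb), minpoly.aeval k[X] w,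
    ?_, C bb * IsLocalization.integerNormalization (nonZeroDivisors k[X]) a,
    C ba * IsLocalization.integerNormalization (nonZeroDivisors k[X]) b, ?_⟩
  · intro T hfT hwT
    have h1 : k⟮f⟯ ≤ T := by rwa [adjoin_simple_le_iff]
    have h2 : aeval f q ∈ T := h1 (by
      rw [mem_adjoin_simple_iff]
      exact ⟨q, 1, by simp⟩)
    have h3 : w0 ∈ T := by
      have : w0 = w / aeval f q := by rw [hw, hqf]; field_simp
      rw [this]
      exact div_mem hwT h2
    have h4 : (⊤ : IntermediateField k⟮f⟯ K) ≤ extendScalars h1 := by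
      rw [← hw0, adjoin_simple_le_iff]
      exact h3
    rw [eq_top_iff]
    intro x _
    exact h4 (show x ∈ (⊤ : IntermediateField k⟮f⟯ K) from trivial)
  · apply Polynomial.map_injective (algebraMap k[X] (RatFunc k))
      (IsFractionRing.injective k[X] (RatFunc k))
    rw [Polynomial.map_add, Polynomial.map_mul, Polynomial.map_mul, Polynomial.map_mul,
      Polynomial.map_mul, hba', hbb', Polynomial.map_C, Polynomial.map_C, Polynomial.map_C,
      ← derivative_map, map_mul]
    rw [← algebraMap_smul (RatFunc k) ba a, ← algebraMap_smul (RatFunc k) bb b,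
      Polynomial.smul_eq_C_mul, Polynomial.smul_eq_C_mul, Polynomial.C_mul]
    linear_combination (C ((algebraMap k[X] (RatFunc k)) ba) *
      C ((algebraMap k[X] (RatFunc k)) bb)) * hab

/-- Away from the zeros of a nonzero polynomial `r`, all embeddings have values in Laurent
series. -/
theorem exists_good [IsAlgClosed N] {f : K} (hf : Transcendental k f)
    [FiniteDimensional k⟮f⟯ K] :
    ∃ r : k[X], r ≠ 0 ∧ ∀ c : N, aeval c r ≠ 0 → Splits k K N f (pt c) := by
  obtain ⟨w, P, r, hP, hr, hPw, hgen, A, B, hAB⟩ := exists_generator (k := k) (K := K) hf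
  refine ⟨r, hr, fun c hc ρ hρ u => ?_⟩
  -- evaluation at `X + c` in power series
  let ev : k[X] →ₐ[k] PowerSeries N := aeval (PowerSeries.X + PowerSeries.C c)
  have hev0 : ((PowerSeries.constantCoeff (R := N)).comp (ev : k[X] →+* PowerSeries N)) =
      (aeval c : k[X] →ₐ[k] N) := by
    refine Polynomial.ringHom_ext ?_ ?_
    · intro a
      simp [ev, PowerSeries.algebraMap_apply]
    · simp [ev]
  have hev1 : ((HahnSeries.ofPowerSeries ℤ N).comp (ev : k[X] →+* PowerSeries N)) =
      (aeval (pt c) : k[X] →ₐ[k] LaurentSeries N) := by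
    refine Polynomial.ringHom_ext ?_ ?_
    · intro a
      simp [ev, PowerSeries.algebraMap_apply, algebraMap_eq_single]
    · simp [ev, pt]
  let g : PowerSeries N →+* Om N :=
    (algebraMap (LaurentSeries N) (Om N)).comp (HahnSeries.ofPowerSeries ℤ N)
  have hgev : g.comp (ev : k[X] →+* PowerSeries N) =
      (ρ : K →+* Om N).comp (aeval f : k[X] →ₐ[k] K).toRingHom := by
    have h1 : g.comp (ev : k[X] →+* PowerSeries N) = (algebraMap (LaurentSeries N) (Om N)).comp
      ((aeval (pt c) : k[X] →ₐ[k] LaurentSeries N) : k[X] →+* LaurentSeries N) := by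
      rw [← hev1]; rfl
    rw [h1]
    refine Polynomial.ringHom_ext ?_ ?_
    · intro a
      simp [← IsScalarTower.algebraMap_apply]
    · simp [hρ]
  have hroot := root_mem_powerSeries g (P.map (ev : k[X] →+* PowerSeries N)) (hP.map _) ?_ (ρ w) ?_
  · obtain ⟨a, ha⟩ := hroot
    have hT := hgen (((IsScalarTower.toAlgHom k (LaurentSeries N) (Om N)).fieldRange).comap ρ) ?_ ?_
    · have hu : u ∈ (⊤ : IntermediateField k K) := trivial
      rw [← hT] at hu
      exact hu
    · exact ⟨pt c, hρ.symm⟩
    · exact ⟨HahnSeries.ofPowerSeries ℤ N a, ha⟩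
  · rw [Polynomial.map_map, hev0]
    rw [separable_def']
    have hu : IsUnit ((aeval c : k[X] →ₐ[k] N) r) := hc.isUnit
    refine ⟨C ((aeval c : k[X] →ₐ[k] N) r)⁻¹ * A.map ((aeval c : k[X] →ₐ[k] N) : k[X] →+* N),
      C ((aeval c : k[X] →ₐ[k] N) r)⁻¹ * B.map ((aeval c : k[X] →ₐ[k] N) : k[X] →+* N), ?_⟩
    have h2 := congrArg (Polynomial.map ((aeval c : k[X] →ₐ[k] N) : k[X] →+* N)) hAB
    rw [Polynomial.map_add, Polynomial.map_mul, Polynomial.map_mul, Polynomial.map_C,
      ← derivative_map] at h2
    have h3 : C ((aeval c : k[X] →ₐ[k] N) r)⁻¹ * C ((aeval c : k[X] →ₐ[k] N) r) = 1 := by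
      rw [← C_mul, inv_mul_cancel₀ hc, C_1]
    have h4 : C (((aeval c : k[X] →ₐ[k] N) : k[X] →+* N) r) = C ((aeval c : k[X] →ₐ[k] N) r) := rfl
    rw [h4] at h2
    linear_combination C ((aeval c : k[X] →ₐ[k] N) r)⁻¹ * h2 + h3
  · rw [Polynomial.map_map, hgev, eval_map, ← RingHom.coe_coe ρ, ← hom_eval₂, hPw, map_zero]

end Good

end Pool.Agent.MP_5a3d27_ag
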