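import Mathlib

open HahnSeries Finset

namespace Pool.Agent.MP_5a3d27_ag

section Euler

variable {N : Type*} [Field N]

/-- The Euler derivation `X d/dX` on Laurent series. -/
def euler (x : LaurentSeries N) : LaurentSeries N where
  coeff n := (n : N) * x.coeff n
  isPWO_support' := x.isPWO_support.mono fun n hn => by
    simp only [Function.mem_support] at hn
    exact right_ne_zero_of_mul hn

@[simp] lemma euler_coeff (x : LaurentSeries N) (n : ℤ) :
    (euler x).coeff n = (n : N) * x.coeff n := rfl

lemma euler_support (x : LaurentSeries N) : (euler x).support ⊆ x.support := fun n hn => by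
  rw [HahnSeries.mem_support] at hn ⊢
  exact right_ne_zero_of_mul hn

lemma euler_add (x y : LaurentSeries N) : euler (x + y) = euler x + euler y := by
  ext n
  simp [mul_add]

lemma euler_mul (x y : LaurentSeries N) : euler (x * y) = x * euler y + euler x * y := by
  ext n
  rw [euler_coeff, HahnSeries.coeff_add, HahnSeries.coeff_mul,
    HahnSeries.coeff_mul_right' y.isPWO_support (euler_support y),
    HahnSeries.coeff_mul_left' x.isPWO_support (euler_support x), mul_sum, ← sum_add_distrib]
  refine sum_congr rfl fun ij hij => ?_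
  rw [Finset.mem_antidiagonal] at hij
  simp only [euler_coeff]
  rw [← hij.2.2]
  push_cast
  ring

lemma euler_single (n : ℤ) (a : N) : euler (single n a) = single n ((n : N) * a) := by
  ext m
  rw [euler_coeff]
  by_cases h : m = n
  · subst h; simp
  · simp [HahnSeries.coeff_single_of_ne h]

lemma orderTop_le_euler (x : LaurentSeries N) : x.orderTop ≤ (euler x).orderTop := by
  rw [HahnSeries.le_orderTop_iff_forall]
  intro j hj
  rw [euler_coeff, HahnSeries.coeff_eq_zero_of_lt_orderTop hj, mul_zero]

lemma one_le_euler {x : LaurentSeries N} (hx : 0 ≤ x.orderTop) : 1 ≤ (euler x).orderTop := by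
  rw [HahnSeries.le_orderTop_iff_forall]
  intro j hj
  rw [euler_coeff]
  have hj' : j < 1 := by exact_mod_cast hj
  rcases lt_or_eq_of_le (Int.lt_add_one_iff.1 (by omega : j < 0 + 1)) with h | h
  · rw [HahnSeries.coeff_eq_zero_of_lt_orderTop (lt_of_lt_of_le (by exact_mod_cast h) hx), mul_zero]
  · rw [h]; simp

/-- `d/dX` on Laurent series. -/
noncomputable def dX (x : LaurentSeries N) : LaurentSeries N := single (-1) 1 * euler x

/-- `d/dT` for `T = 1/X`. -/
noncomputable def dInv (x : LaurentSeries N) : LaurentSeries N := - (single 1 1 * euler x)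

lemma dX_add (x y : LaurentSeries N) : dX (x + y) = dX x + dX y := by
  simp [dX, euler_add, mul_add]

lemma dX_mul (x y : LaurentSeries N) : dX (x * y) = x * dX y + y * dX x := by
  simp only [dX, euler_mul]; ring

lemma dInv_add (x y : LaurentSeries N) : dInv (x + y) = dInv x + dInv y := by
  simp only [dInv, euler_add, mul_add]; ring

lemma dInv_mul (x y : LaurentSeries N) : dInv (x * y) = x * dInv y + y * dInv x := by
  simp only [dInv, euler_mul]; ring

lemma dX_C (a : N) : dX (single 0 a) = 0 := by
  simp [dX, euler_single]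

lemma dInv_C (a : N) : dInv (single 0 a) = 0 := by
  simp [dInv, euler_single]

lemma dX_X : dX (single (1 : ℤ) (1 : N)) = 1 := by
  simp only [dX, euler_single, HahnSeries.single_mul_single]
  simp

lemma dInv_X : dInv (single (-1 : ℤ) (1 : N)) = 1 := by
  simp only [dInv, euler_single, HahnSeries.single_mul_single]
  simp

lemma dX_int {x : LaurentSeries N} (hx : 0 ≤ x.orderTop) : 0 ≤ (dX x).orderTop := by
  unfold dX
  rw [HahnSeries.orderTop_mul, HahnSeries.orderTop_single one_ne_zero]
  have := one_le_euler hx
  calc (0 : WithTop ℤ) = ((-1 : ℤ) : WithTop ℤ) + 1 := by rfl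
    _ ≤ _ := by gcongr

lemma dInv_order {x : LaurentSeries N} {m : ℤ} (hx : (m : WithTop ℤ) ≤ x.orderTop) :
    ((m + 1 : ℤ) : WithTop ℤ) ≤ (dInv x).orderTop := by
  unfold dInv
  rw [HahnSeries.orderTop_neg, HahnSeries.orderTop_mul, HahnSeries.orderTop_single one_ne_zero]
  have := hx.trans (orderTop_le_euler x)
  calc ((m + 1 : ℤ) : WithTop ℤ) = ((1 : ℤ) : WithTop ℤ) + (m : WithTop ℤ) := by
        rw [add_comm]; rfl
    _ ≤ _ := by gcongr

/-- The ring of integers is integrally closed. -/
lemma orderTop_nonneg_of_monic {x : LaurentSeries N} (p : Polynomial (LaurentSeries N))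
    (hp : p.Monic) (hc : ∀ i, 0 ≤ (p.coeff i).orderTop) (hx : p.eval x = 0) :
    0 ≤ x.orderTop := by
  by_contra hneg
  push Not at hneg
  have hx0 : x ≠ 0 := by
    rintro rfl
    simp at hneg
  obtain ⟨m, hm⟩ := WithTop.ne_top_iff_exists.1 (HahnSeries.orderTop_ne_top.2 hx0)
  have hm0 : m < 0 := by
    rw [← hm] at hneg
    exact_mod_cast hneg
  set v := HahnSeries.addVal ℤ N with hv
  have hvx : v x = (m : WithTop ℤ) := hm.symm
  have hpow : ∀ i : ℕ, v (x ^ i) = ((i * m : ℤ) : WithTop ℤ) := by
    intro i
    induction i with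
    | zero => simp
    | succ i ih =>
      rw [pow_succ, AddValuation.map_mul, ih, hvx]
      have : ((i + 1 : ℕ) : ℤ) * m = i * m + m := by push_cast; ring
      rw [this]
      rfl
  have hsum : x ^ p.natDegree = - ∑ i ∈ range p.natDegree, p.coeff i * x ^ i := by
    have h1 := hx
    rw [Polynomial.eval_eq_sum_range, sum_range_succ, hp.coeff_natDegree, one_mul] at h1
    exact eq_neg_of_add_eq_zero_right h1
  have hlt : ((p.natDegree * m : ℤ) : WithTop ℤ) < v (∑ i ∈ range p.natDegree, p.coeff i * x ^ i) := by
    apply AddValuation.map_lt_sum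
    · exact WithTop.coe_ne_top
    · intro i hi
      rw [mem_range] at hi
      rw [AddValuation.map_mul, hpow]
      have h2 : (0 : WithTop ℤ) ≤ v (p.coeff i) := hc i
      calc ((p.natDegree * m : ℤ) : WithTop ℤ) < ((i * m : ℤ) : WithTop ℤ) := by
            norm_cast
            have : (i : ℤ) < p.natDegree := by exact_mod_cast hi
            nlinarith
        _ = 0 + ((i * m : ℤ) : WithTop ℤ) := by rw [zero_add]
        _ ≤ _ := by gcongr
  have h3 := hpow p.natDegree
  rw [hsum, AddValuation.map_neg] at h3
  rw [h3] at hlt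
  exact lt_irrefl _ hlt

end Euler

end Pool.Agent.MP_5a3d27_ag
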