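import Mathlib

open TensorProduct IntermediateField
open scoped IntermediateField.algebraAdjoinAdjoin

namespace Pool.Agent.MP_5a3d27_ag

/-- A finitely generated domain over an algebraically closed field has a rational point. -/
theorem exists_point {k R : Type*} [Field k] [IsAlgClosed k] [CommRing R] [Nontrivial R]
    [Algebra k R] [Algebra.FiniteType k R] : Nonempty (R →ₐ[k] k) := by
  obtain ⟨m, hm⟩ := Ideal.exists_maximal R
  let _ : Field (R ⧸ m) := Ideal.Quotient.field m
  have : Algebra.FiniteType k (R ⧸ m) := inferInstance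
  have : Module.Finite k (R ⧸ m) := finite_of_finite_type_of_isJacobsonRing k (R ⧸ m)
  let e : k ≃ₐ[k] (R ⧸ m) :=
    AlgEquiv.ofBijective (Algebra.ofId k (R ⧸ m)) IsAlgClosed.algebraMap_bijective_of_isIntegral
  exact ⟨(e.symm : (R ⧸ m) →ₐ[k] k).comp (Ideal.Quotient.mkₐ k m)⟩

theorem isDomain_tensor {k : Type*} {K M : Type*} [Field k] [IsAlgClosed k] [Field K] [Field M]
    [Algebra k K] [Algebra k M] : IsDomain (M ⊗[k] K) := by
  classical
  have : Nontrivial (M ⊗[k] K) := inferInstance
  suffices h : NoZeroDivisors (M ⊗[k] K) from NoZeroDivisors.to_isDomain _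
  constructor
  intro x y hxy
  by_contra hne
  push Not at hne
  obtain ⟨hx, hy⟩ := hne
  let b := Module.Free.chooseBasis k K
  let B := Algebra.TensorProduct.basis M b
  have hx' : B.repr x ≠ 0 := by simpa using hx
  have hy' : B.repr y ≠ 0 := by simpa using hy
  obtain ⟨i, hi⟩ := Finsupp.ne_iff.1 hx'
  obtain ⟨j, hj⟩ := Finsupp.ne_iff.1 hy'
  simp only [Finsupp.coe_zero, Pi.zero_apply] at hi hj
  let S : Finset M := (B.repr x).support.image (B.repr x) ∪ (B.repr y).support.image (B.repr y) ∪
    {(B.repr x i)⁻¹, (B.repr y j)⁻¹}
  let R := Algebra.adjoin k (S : Set M)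
  have : Algebra.FiniteType k R := by
    rw [← Subalgebra.fg_iff_finiteType]
    exact ⟨S, rfl⟩
  obtain ⟨π⟩ := exists_point (k := k) (R := R)
  have hxR : ∀ l, B.repr x l ∈ R := by
    intro l
    by_cases hl : B.repr x l = 0
    · rw [hl]; exact R.zero_mem
    · apply Algebra.subset_adjoin
      simp only [S, Finset.coe_union, Set.mem_union, Finset.mem_coe, Finset.mem_image]
      left; left
      exact ⟨l, by simpa using hl, rfl⟩
  have hyR : ∀ l, B.repr y l ∈ R := by
    intro l
    by_cases hl : B.repr y l = 0
    · rw [hl]; exact R.zero_mem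
    · apply Algebra.subset_adjoin
      simp only [S, Finset.coe_union, Set.mem_union, Finset.mem_coe, Finset.mem_image]
      left; right
      exact ⟨l, by simpa using hl, rfl⟩
  have hxi : (B.repr x i)⁻¹ ∈ R := by
    apply Algebra.subset_adjoin
    simp [S]
  have hyj : (B.repr y j)⁻¹ ∈ R := by
    apply Algebra.subset_adjoin
    simp [S]
  let x' : R ⊗[k] K := ∑ l ∈ (B.repr x).support, (⟨B.repr x l, hxR l⟩ : R) ⊗ₜ[k] b l
  let y' : R ⊗[k] K := ∑ l ∈ (B.repr y).support, (⟨B.repr y l, hyR l⟩ : R) ⊗ₜ[k] b l
  let ι : R ⊗[k] K →ₐ[k] M ⊗[k] K := Algebra.TensorProduct.map R.val (AlgHom.id k K)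
  have hι : Function.Injective ι := by
    have := Module.Flat.rTensor_preserves_injective_linearMap (M := K) R.val.toLinearMap
      Subtype.val_injective
    exact this
  have hBs : ∀ l, B l = 1 ⊗ₜ[k] b l := fun l => by simp [B]
  have hιx : ι x' = x := by
    conv_rhs => rw [← B.linearCombination_repr x]
    rw [Finsupp.linearCombination_apply, Finsupp.sum]
    simp only [x', map_sum, ι, Algebra.TensorProduct.map_tmul]
    refine Finset.sum_congr rfl fun l _ => ?_
    rw [hBs, TensorProduct.smul_tmul']
    simp
  have hιy : ι y' = y := by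
    conv_rhs => rw [← B.linearCombination_repr y]
    rw [Finsupp.linearCombination_apply, Finsupp.sum]
    simp only [y', map_sum, ι, Algebra.TensorProduct.map_tmul]
    refine Finset.sum_congr rfl fun l _ => ?_
    rw [hBs, TensorProduct.smul_tmul']
    simp
  have hxy' : x' * y' = 0 := by
    apply hι
    rw [map_mul, hιx, hιy, hxy, map_zero]
  let ϖ : R ⊗[k] K →ₐ[k] K :=
    Algebra.TensorProduct.lift ((Algebra.ofId k K).comp π) (AlgHom.id k K)
      (fun _ _ => Commute.all _ _)
  have hϖ : ∀ (r : R) (a : K), ϖ (r ⊗ₜ[k] a) = π r • a := by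
    intro r a
    simp only [ϖ, Algebra.TensorProduct.lift_tmul, AlgHom.coe_comp, Function.comp_apply,
      AlgHom.id_apply, Algebra.smul_def]
    rfl
  have key : ∀ (z : M ⊗[k] K) (hz : ∀ l, B.repr z l ∈ R) (l₀), (B.repr z l₀)⁻¹ ∈ R →
      B.repr z l₀ ≠ 0 →
      ϖ (∑ l ∈ (B.repr z).support, (⟨B.repr z l, hz l⟩ : R) ⊗ₜ[k] b l) ≠ 0 := by
    intro z hz l₀ hinv hne hzero
    rw [map_sum] at hzero
    simp only [hϖ] at hzero
    have hli := linearIndependent_iff'.1 b.linearIndependent (B.repr z).support
      (fun l => π ⟨B.repr z l, hz l⟩) hzero l₀ (by simpa using hne)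
    have hunit : (⟨B.repr z l₀, hz l₀⟩ : R) * ⟨(B.repr z l₀)⁻¹, hinv⟩ = 1 := by
      apply Subtype.ext
      simp [hne]
    have := congrArg π hunit
    rw [map_mul, map_one] at this
    rw [hli, zero_mul] at this
    exact zero_ne_one this
  have h1 := key x hxR i hxi hi
  have h2 := key y hyR j hyj hj
  have h3 : ϖ x' * ϖ y' = 0 := by rw [← map_mul, hxy', map_zero]
  rcases mul_eq_zero.1 h3 with h | h
  · exact h1 h
  · exact h2 h

theorem isAlgebraic_poly_of_adjoin {k K : Type*} [Field k] [Field K] [Algebra k K] (f a : K)
    (ha : IsAlgebraic k⟮f⟯ a) :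
    @IsAlgebraic (Polynomial k) K _ _ (RingHom.toAlgebra (Polynomial.aeval f).toRingHom) a := by
  have h1 : IsAlgebraic (Algebra.adjoin k {f}) a :=
    (IsFractionRing.isAlgebraic_iff (Algebra.adjoin k {f}) k⟮f⟯ K).2 ha
  letI : Algebra (Polynomial k) K := RingHom.toAlgebra (Polynomial.aeval f).toRingHom
  have hmem : ∀ p : Polynomial k, Polynomial.aeval f p ∈ Algebra.adjoin k {f} := by
    intro p
    rw [Algebra.adjoin_singleton_eq_range_aeval]
    exact ⟨p, rfl⟩
  let g : Polynomial k →ₐ[k] Algebra.adjoin k {f} := (Polynomial.aeval f).codRestrict _ hmem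
  have hg : Function.Surjective g := by
    rintro ⟨x, hx⟩
    rw [Algebra.adjoin_singleton_eq_range_aeval] at hx
    obtain ⟨p, hp⟩ := hx
    exact ⟨p, Subtype.ext hp⟩
  exact h1.of_ringHom_of_comp_eq g (RingHom.id K) hg Function.injective_id rfl

/-- Abstract form: if `K` is algebraic over `k(f)` and the image of `f` is transcendental over the
image of `M`, then `M ⊗ K → F` is injective. -/
theorem productMap_injective {k K M F : Type*} [Field k] [IsAlgClosed k] [Field K] [Field M]
    [Field F] [Algebra k K] [Algebra k M] [Algebra k F] (g : M →ₐ[k] F) (h : K →ₐ[k] F) (f : K)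
    (hK : Algebra.IsAlgebraic k⟮f⟯ K)
    (hf : ∀ p : Polynomial M, Polynomial.eval₂ (g : M →+* F) (h f) p = 0 → p = 0) :
    Function.Injective (Algebra.TensorProduct.productMap g h) := by
  have hdom : IsDomain (M ⊗[k] K) := isDomain_tensor
  let μ : M ⊗[k] K →ₐ[k] F := Algebra.TensorProduct.productMap g h
  suffices hμ : Function.Injective μ from hμ
  have hμt : ∀ (m : M) (a : K), μ (m ⊗ₜ[k] a) = g m * h a := fun m a => by simp [μ]
  -- the polynomial ring over M
  let φ : Polynomial M →ₐ[M] M ⊗[k] K := Polynomial.aeval ((1 : M) ⊗ₜ[k] f)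
  have hμφ : ∀ p : Polynomial M, μ (φ p) = Polynomial.eval₂ (g : M →+* F) (h f) p := by
    intro p
    induction p using Polynomial.induction_on' with
    | add p q hp hq => simp only [map_add, hp, hq, Polynomial.eval₂_add]
    | monomial n m =>
      simp only [φ, Polynomial.aeval_monomial, Polynomial.eval₂_monomial]
      rw [map_mul, map_pow, hμt]
      simp only [map_one, one_mul]
      congr 1
      rw [Algebra.TensorProduct.algebraMap_apply, hμt]
      simp
  have hφinj : Function.Injective φ := by
    rw [injective_iff_map_eq_zero]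
    intro p hp
    apply hf
    rw [← hμφ, hp, map_zero]
  letI : Algebra (Polynomial M) (M ⊗[k] K) := RingHom.toAlgebra φ.toRingHom
  have hfaith : FaithfulSMul (Polynomial M) (M ⊗[k] K) := by
    rw [faithfulSMul_iff_algebraMap_injective]
    exact hφinj
  have halg : ∀ z : M ⊗[k] K, IsAlgebraic (Polynomial M) z := by
    intro z
    induction z using TensorProduct.induction_on with
    | zero => exact isAlgebraic_zero
    | add x y hx hy => exact hx.add hy
    | tmul m a =>
      have h1 : (m ⊗ₜ[k] a : M ⊗[k] K) = (m ⊗ₜ[k] 1) * (1 ⊗ₜ[k] a) := by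
        simp
      rw [h1]
      apply IsAlgebraic.mul
      · have : (m ⊗ₜ[k] (1 : K) : M ⊗[k] K) = algebraMap (Polynomial M) (M ⊗[k] K) (Polynomial.C m) := by
          change _ = φ (Polynomial.C m)
          simp [φ]
        rw [this]
        exact isAlgebraic_algebraMap _
      · letI : Algebra (Polynomial k) K := RingHom.toAlgebra (Polynomial.aeval f).toRingHom
        have ha : IsAlgebraic (Polynomial k) a := isAlgebraic_poly_of_adjoin f a (hK.isAlgebraic a)
        refine ha.ringHom_of_comp_eq (Polynomial.mapRingHom (algebraMap k M))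
          (Algebra.TensorProduct.includeRight : K →ₐ[k] M ⊗[k] K)
          (Polynomial.map_injective _ (algebraMap k M).injective) ?_
        refine Polynomial.ringHom_ext ?_ ?_
        · intro c
          change φ (Polynomial.map (algebraMap k M) (Polynomial.C c)) =
            Algebra.TensorProduct.includeRight (Polynomial.aeval f (Polynomial.C c))
          simp [φ]
        · change φ (Polynomial.map (algebraMap k M) Polynomial.X) =
            Algebra.TensorProduct.includeRight (Polynomial.aeval f Polynomial.X)
          simp [φ]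
  rw [injective_iff_map_eq_zero]
  intro z hz
  by_contra hne
  obtain ⟨r, hr, hdvd⟩ := (halg z).exists_nonzero_dvd (mem_nonZeroDivisors_of_ne_zero hne)
  obtain ⟨w, hw⟩ := hdvd
  have h1 : μ (algebraMap (Polynomial M) (M ⊗[k] K) r) = 0 := by
    rw [hw, map_mul, hz, zero_mul]
  have h2 := hμφ r
  rw [show φ r = algebraMap (Polynomial M) (M ⊗[k] K) r from rfl, h1] at h2
  exact hr (hf r h2.symm)

/-- Over an algebraically closed field `k`: if `K` is algebraic over `k(f)` with `f ∈ K`
transcendental over `M`, then `K` and `M` are linearly disjoint over `k`. -/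
theorem linearDisjoint_of_transcendental {k F : Type*} [Field k] [IsAlgClosed k] [Field F]
    [Algebra k F] (K M : IntermediateField k F) (f : K)
    (hK : Algebra.IsAlgebraic k⟮f⟯ K) (hf : Transcendental M (f : F)) : K.LinearDisjoint M := by
  rw [linearDisjoint_comm, linearDisjoint_iff', Subalgebra.linearDisjoint_iff_injective]
  exact productMap_injective M.val K.val f hK fun p hp => (transcendental_iff.1 hf) p hp

theorem finrank_eq_aux {k F : Type*} [Field k] [Field F] [Algebra k F]
    {A : IntermediateField k F} {B C : IntermediateField k F} (hle : B ≤ C)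
    (M' : IntermediateField A F) (N : IntermediateField M' F) (e1 : B.toSubfield = M'.toSubfield)
    (e2 : (extendScalars hle).toSubfield = N.toSubfield) :
    Module.finrank B (extendScalars hle) = Module.finrank M' N := by
  have hc : (algebraMap M' N).comp (RingEquiv.subfieldCongr e1).toRingHom =
      (RingEquiv.subfieldCongr e2).toRingHom.comp (algebraMap B (extendScalars hle)) := by
    apply RingHom.ext
    intro x
    apply Subtype.ext
    rfl
  exact Algebra.finrank_eq_of_equiv_equiv (RingEquiv.subfieldCongr e1)
    (RingEquiv.subfieldCongr e2) hc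

set_option maxHeartbeats 4000000 in
/-- If `K` and `M` are linearly disjoint over `k` and `A ≤ K` with `K / A` algebraic, then
`[K M : A M] = [K : A]`. -/
theorem relfinrank_sup_of_linearDisjoint {k F : Type*} [Field k] [Field F] [Algebra k F]
    {K M A : IntermediateField k F} (hAK : A ≤ K) (H : K.LinearDisjoint M)
    (halg : Algebra.IsAlgebraic A (extendScalars hAK)) :
    relfinrank (A ⊔ M) (K ⊔ M) = relfinrank A K := by
  classical
  set S : Set F := (A : Set F) ∪ M with hS
  have hAM : A ⊔ M = adjoin k S := by rw [IntermediateField.sup_def]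
  let K' : IntermediateField A F := extendScalars hAK
  have hAS : A ≤ adjoin k S := by rw [← hAM]; exact le_sup_left
  let M' : IntermediateField A F := extendScalars hAS
  let e := Module.Free.chooseBasis A K'
  let m := Module.Free.chooseBasis k M
  -- products are linearly independent over A
  have h1 : LinearIndependent K (fun i => (m i : F)) := H.linearIndependent_right m.linearIndependent
  have h1' : LinearIndependent K' (fun i => (m i : F)) := by
    rw [linearIndependent_iff'] at h1 ⊢
    intro s g hg i hi
    have := h1 s (fun i => ⟨g i, (g i).2⟩) hg i hi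
    exact Subtype.ext (congrArg Subtype.val this)
  have h2 := linearIndependent_smul e.linearIndependent h1'
  -- the elements of the ring generated by A and M
  have h3 : ∀ r ∈ Algebra.adjoin k S, r ∈ Submodule.span A (Set.range fun i => (m i : F)) := by
    have hmul : ∀ x ∈ M, x ∈ Submodule.span A (Set.range fun i => (m i : F)) := by
      intro x hx
      have := m.linearCombination_repr ⟨x, hx⟩
      have h4 := congrArg (fun y : M => (y : F)) this
      simp only [Finsupp.linearCombination_apply, Finsupp.sum] at h4
      rw [← h4]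
      simp only [AddSubmonoidClass.coe_finsetSum, IntermediateField.coe_smul]
      refine Submodule.sum_mem _ fun i _ => ?_
      have : (m.repr ⟨x, hx⟩ i) • (m i : F) = (algebraMap k A (m.repr ⟨x, hx⟩ i)) • (m i : F) := by
        rw [algebraMap_smul]
      rw [this]
      exact Submodule.smul_mem _ _ (Submodule.subset_span ⟨i, rfl⟩)
    intro r hr
    induction hr using Algebra.adjoin_induction with
    | mem x hx =>
      rcases hx with hx | hx
      · have h5 := hmul 1 M.one_mem
        have : x = (⟨x, hx⟩ : A) • (1 : F) := by rw [Algebra.smul_def, mul_one]; rfl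
        rw [this]
        exact Submodule.smul_mem _ _ h5
      · exact hmul x hx
    | algebraMap c => exact hmul _ (M.algebraMap_mem c)
    | add x y _ _ hx hy => exact Submodule.add_mem _ hx hy
    | mul x y hx0 hy0 hx hy =>
      clear hx0 hy0
      have hm1 : ∀ i, (m i : F) * y ∈ Submodule.span A (Set.range fun i => (m i : F)) := by
        intro i
        induction hy using Submodule.span_induction with
        | mem z hz =>
          obtain ⟨j, rfl⟩ := hz
          exact hmul _ (M.mul_mem (m i).2 (m j).2)
        | zero => rw [mul_zero]; exact Submodule.zero_mem _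
        | add a b _ _ ha hb => rw [mul_add]; exact Submodule.add_mem _ ha hb
        | smul a b _ hb => rw [mul_smul_comm]; exact Submodule.smul_mem _ _ hb
      induction hx using Submodule.span_induction with
      | mem z hz =>
        obtain ⟨i, rfl⟩ := hz
        exact hm1 i
      | zero => rw [zero_mul]; exact Submodule.zero_mem _
      | add a b _ _ ha hb => rw [add_mul]; exact Submodule.add_mem _ ha hb
      | smul a b _ hb => rw [smul_mul_assoc]; exact Submodule.smul_mem _ _ hb
  have h6 : LinearIndependent (Algebra.adjoin k S) (fun j => (e j : F)) := by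
    rw [linearIndependent_iff']
    intro s g hg j hj
    have h7 : ∀ j, ∃ c : Module.Free.ChooseBasisIndex k M →₀ A, (c.sum fun i a => a • (m i : F)) = g j := by
      intro j
      exact Finsupp.mem_span_range_iff_exists_finsupp.1 (h3 (g j) (g j).2)
    choose c hc using h7
    let t : Finset (Module.Free.ChooseBasisIndex k M) := s.biUnion fun j => (c j).support
    have h8 : ∑ p ∈ s ×ˢ t, (c p.1 p.2) • (e p.1 • (m p.2 : F)) = 0 := by
      rw [Finset.sum_product, ← hg]
      refine Finset.sum_congr rfl fun j hj => ?_
      rw [Algebra.smul_def]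
      have : (algebraMap (Algebra.adjoin k S) F) (g j) = (g j : F) := rfl
      rw [this, ← hc j, Finsupp.sum_of_support_subset (c j) (s := t) ?_ _ (by simp)]
      · rw [Finset.sum_mul]
        refine Finset.sum_congr rfl fun i _ => ?_
        rw [Algebra.smul_def, Algebra.smul_def, Algebra.smul_def]
        have : (algebraMap K' F) (e j) = (e j : F) := rfl
        rw [this]
        ring
      · intro i hi
        exact Finset.mem_biUnion.2 ⟨j, hj, hi⟩
    have h9 := linearIndependent_iff'.1 h2 (s ×ˢ t) (fun p => c p.1 p.2) h8
    have h10 : c j = 0 := by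
      ext i
      by_cases hi : i ∈ (c j).support
      · rw [h9 (j, i) (Finset.mem_product.2 ⟨hj, Finset.mem_biUnion.2 ⟨j, hj, hi⟩⟩)]
        rfl
      · simpa using hi
    have h11 := hc j
    rw [h10, Finsupp.sum_zero_index] at h11
    exact Subtype.ext h11.symm
  have h12 : LinearIndependent (adjoin k S) (fun j => (e j : F)) := by
    rw [← LinearIndependent.iff_fractionRing (R := Algebra.adjoin k S)]
    exact h6
  have h13 : LinearIndependent M' (K'.val ∘ e) := h12
  have h14 : K'.LinearDisjoint M' := LinearDisjoint.of_basis_left e h13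
  have h15 := h14.adjoin_rank_eq_rank_left_of_isAlgebraic_left
  have hle : A ⊔ M ≤ K ⊔ M := sup_le_sup_right hAK M
  rw [relfinrank_eq_finrank_of_le hAK, relfinrank_eq_finrank_of_le hle]
  have h16 : Module.finrank M' (adjoin M' (K' : Set F)) = Module.finrank A K' := by
    unfold Module.finrank; rw [h15]
  have hset : ∀ x : F, x ∈ extendScalars hle ↔ x ∈ adjoin M' (K' : Set F) := by
    intro x
    rw [mem_extendScalars]
    constructor
    · intro hx
      rw [IntermediateField.sup_def] at hx
      induction hx using adjoin_induction with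
      | mem y hy =>
        rcases hy with hy | hy
        · exact subset_adjoin M' (K' : Set F) hy
        · have : y ∈ adjoin k S := by rw [← hAM]; exact (le_sup_right : M ≤ A ⊔ M) hy
          exact (adjoin M' (K' : Set F)).algebraMap_mem ⟨y, this⟩
      | algebraMap c => exact subset_adjoin M' (K' : Set F) (K.algebraMap_mem c)
      | add x y _ _ hx hy => exact add_mem hx hy
      | inv x _ hx => exact inv_mem hx
      | mul x y _ _ hx hy => exact mul_mem hx hy
    · intro hx
      induction hx using adjoin_induction with
      | mem x hx => exact (le_sup_left : K ≤ K ⊔ M) hx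
      | algebraMap x =>
        have h17 : (x : F) ∈ adjoin k S := x.2
        rw [← hAM] at h17
        exact hle h17
      | add x y _ _ hx hy => exact add_mem hx hy
      | inv x _ hx => exact inv_mem hx
      | mul x y _ _ hx hy => exact mul_mem hx hy
  have e1 : (A ⊔ M).toSubfield = M'.toSubfield := by rw [hAM]; rfl
  have e2 : (extendScalars hle).toSubfield = (adjoin M' (K' : Set F)).toSubfield :=
    SetLike.ext hset
  have h18 : Module.finrank ↥(A ⊔ M) (extendScalars hle) = Module.finrank M' (adjoin M' (K' : Set F)) :=
    finrank_eq_aux hle M' _ e1 e2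
  rw [h18, h16]

end Pool.Agent.MP_5a3d27_ag
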