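import Pool.Agent.MP_5a3d27_ag.Count

open IntermediateField Polynomial
open scoped IntermediateField.algebraAdjoinAdjoin

attribute [-instance] HahnSeries.powerSeriesAlgebra

namespace Pool.Agent.MP_5a3d27_ag

variable {k F : Type*} [Field k] [Field F] [Algebra k F] {n : ℕ}

theorem iSup_adjoin_eq (t : Fin n → F) : (⨆ i, k⟮t i⟯) = IntermediateField.adjoin k (Set.range t) := by
  apply le_antisymm
  · refine iSup_le fun i => ?_
    rw [adjoin_simple_le_iff]
    exact subset_adjoin k _ ⟨i, rfl⟩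
  · rw [adjoin_le_iff]
    rintro _ ⟨i, rfl⟩
    exact (le_iSup (fun i => k⟮t i⟯) i) (mem_adjoin_simple_self k _)

theorem algebraicIndependent_of_finrank (hn : Algebra.trdeg k F = n) (t : Fin n → F)
    (ht : 0 < Module.finrank (⨆ i, k⟮t i⟯ : IntermediateField k F) F) :
    AlgebraicIndependent k t := by
  rw [iSup_adjoin_eq] at ht
  haveI : FiniteDimensional (IntermediateField.adjoin k (Set.range t)) F :=
    Module.finite_of_finrank_pos ht
  have h : Algebra.IsAlgebraic (IntermediateField.adjoin k (Set.range t)) F := inferInstance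
  have halg : Algebra.IsAlgebraic (Algebra.adjoin k (Set.range t)) F :=
    (IsFractionRing.comap_isAlgebraic_iff (A := Algebra.adjoin k (Set.range t))
        (K := IntermediateField.adjoin k (Set.range t)) (C := F)).2 h
  have hB : IsTranscendenceBasis k t := by
    apply Algebra.IsAlgebraic.isTranscendenceBasis_of_lift_le_trdeg_of_finite
    rw [hn]
    simp
  exact hB.1

variable [IsAlgClosed k] [CharZero k]

theorem main_exists (K : Fin n → IntermediateField k F)
    (hfg : ∀ i, Algebra.EssFiniteType k (K i))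
    (h1 : ∀ i, Algebra.trdeg k (K i) = 1) (hgen : ⨆ i, K i = ⊤) (hn : Algebra.trdeg k F = n)
    (d : Fin n → ℕ) (f : ∀ i, K i) (hf : ∀ i, Transcendental k (f i))
    (hd : ∀ i, Module.finrank k⟮f i⟯ (K i) = d i)
    (hmin : ∀ i, ∀ g : K i, Transcendental k g → d i ≤ Module.finrank k⟮g⟯ (K i))
    (i1 i2 : Fin n) (hi : i1 ≠ i2) (hd1 : 2 ≤ d i1) (hmax : ∀ i, d i ≤ d i2) :
    ∃ t : Fin n → F, AlgebraicIndependent k t ∧
      Module.finrank (⨆ i, k⟮t i⟯ : IntermediateField k F) F = ∏ i, d i ∧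
      ∀ g : ∀ i, K i, (∀ i, Transcendental k (g i)) → ∀ α : F ≃ₐ[k] F,
        (⨆ i, k⟮(g i : F)⟯).map (α : F →ₐ[k] F) ≠ ⨆ i, k⟮t i⟯ := by
  classical
  set M : IntermediateField k F := ⨆ j ∈ Finset.univ.erase i1, K j with hM
  haveI : FiniteDimensional k⟮f i1⟯ (K i1) :=
    haveI := hfg i1
    finiteDimensional_of_trdeg_one (h1 i1) (hf i1)
  obtain ⟨f', hf', hf'tr, hinf⟩ := exists_splits_inf (N := AlgebraicClosure M) (hf i1)
  set fn : ∀ i, K i := Function.update f i1 f' with hfn
  have hfn1 : fn i1 = f' := by rw [hfn, Function.update_self]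
  have hfn2 : ∀ i, k⟮fn i⟯ = k⟮f i⟯ := by
    intro i
    by_cases h : i = i1
    · subst h; rw [hfn1, hf']
    · rw [hfn, Function.update_of_ne h]
  have hfntr : ∀ i, Transcendental k (fn i) := by
    intro i
    by_cases h : i = i1
    · subst h; rw [hfn1]; exact hf'tr
    · rw [hfn, Function.update_of_ne h]; exact hf i
  have hfnd : ∀ i, Module.finrank k⟮fn i⟯ (K i) = d i := by
    intro i
    rw [hfn2 i]; exact hd i
  rw [← hfn1] at hinf
  haveI : FiniteDimensional k⟮fn i2⟯ (K i2) :=
    haveI := hfg i2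
    finiteDimensional_of_trdeg_one (h1 i2) (hfntr i2)
  obtain ⟨h, hh⟩ := Field.exists_primitive_element k⟮fn i2⟯ (K i2)
  have hne : k⟮fn i1⟯ ≠ ⊤ := by
    intro htop
    have h3 := hfnd i1
    rw [htop, IntermediateField.finrank_top] at h3
    omega
  have hdeg := degree_tw K h1 hgen hn fn hfntr i1 i2 h hi
  have hdeg' : Module.finrank (⨆ i, k⟮tw K fn i1 i2 h i⟯ : IntermediateField k F) F = ∏ i, d i := by
    rw [hdeg]
    exact Finset.prod_congr rfl fun i _ => hfnd i
  have hdpos : ∀ i, 0 < d i := by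
    intro i
    rw [← hd i]
    haveI := hfg i
    haveI := finiteDimensional_of_trdeg_one (h1 i) (hf i)
    exact Module.finrank_pos
  refine ⟨tw K fn i1 i2 h, algebraicIndependent_of_finrank hn _ ?_, hdeg', ?_⟩
  · rw [hdeg']
    exact Finset.prod_pos fun i _ => hdpos i
  · intro g hg α hα
    exact main_aux K hfg h1 hgen hn fn hfntr i1 i2 hi h hh hne M hM hinf
      (fun i g hg => by rw [hfnd]; exact hmin i g hg) (fun i => by rw [hfnd, hfnd]; exact hmax i)
      g hg α hα

end Pool.Agent.MP_5a3d27_ag
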