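import Pool.Agent.MP_5a3d27_ag.LinDisj

open IntermediateField
open scoped IntermediateField.algebraAdjoinAdjoin

namespace Pool.Agent.MP_5a3d27_ag

section

variable {k F : Type*} [Field k] [Field F] [Algebra k F]

/-- If the transcendence degree is one, everything is algebraic over `k(f)`. -/
theorem isAlgebraic_of_trdeg_one {K : Type*} [Field K] [Algebra k K] (h : Algebra.trdeg k K = 1)
    {f : K} (hf : Transcendental k f) : Algebra.IsAlgebraic k⟮f⟯ K := by
  have h1 : AlgebraicIndependent k (fun _ : Unit => f) := by
    rw [algebraicIndependent_unique_type_iff]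
    exact hf
  have h2 : IsTranscendenceBasis k (fun _ : Unit => f) := by
    apply h1.isTranscendenceBasis_of_lift_trdeg_le_of_finite
    rw [h]
    simp
  have h3 := h2.isAlgebraic_field
  rw [Set.range_const] at h3
  exact h3

theorem finiteDimensional_of_trdeg_one {K : Type*} [Field K] [Algebra k K]
    [Algebra.EssFiniteType k K] (h : Algebra.trdeg k K = 1)
    {f : K} (hf : Transcendental k f) : FiniteDimensional k⟮f⟯ K := by
  have := isAlgebraic_of_trdeg_one h hf
  have : Algebra.EssFiniteType k⟮f⟯ K := Algebra.EssFiniteType.of_comp k k⟮f⟯ K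
  exact Algebra.finite_of_essFiniteType_of_isAlgebraic

/-- If each `K i` is algebraic over `A i` then the compositum is algebraic over the compositum. -/
theorem isAlgebraic_iSup {ι : Type*} {K A : ι → IntermediateField k F} (s : Finset ι)
    (h : ∀ i ∈ s, ∀ x ∈ K i, IsAlgebraic (A i) x) :
    ∀ x ∈ ⨆ i ∈ s, K i, IsAlgebraic (⨆ i ∈ s, A i : IntermediateField k F) x := by
  have hle : (⨆ i ∈ s, K i) ≤ (algebraicClosure (⨆ i ∈ s, A i : IntermediateField k F) F).restrictScalars k := by
    refine iSup₂_le fun i hi x hx => ?_
    rw [mem_restrictScalars, mem_algebraicClosure_iff]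
    have h1 : IsAlgebraic (A i) x := h i hi x hx
    have h2 : A i ≤ ⨆ i ∈ s, A i := le_iSup₂_of_le i hi le_rfl
    let j : A i →+* (⨆ i ∈ s, A i : IntermediateField k F) := (IntermediateField.inclusion h2 : A i →+* _)
    exact h1.ringHom_of_comp_eq j (RingHom.id F) (inclusion_injective h2) rfl
  intro x hx
  have := hle hx
  rwa [mem_restrictScalars, mem_algebraicClosure_iff] at this

end

section

variable {k F : Type*} [Field k] [Field F] [Algebra k F] {n : ℕ}

/-- Algebraic independence of `f i ∈ K i` when the `K i` have transcendence degree one, generate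
`F`, and `F` has transcendence degree `n`. -/
theorem isTranscendenceBasis_of_product (K : Fin n → IntermediateField k F)
    (h1 : ∀ i, Algebra.trdeg k (K i) = 1) (hgen : ⨆ i, K i = ⊤) (hn : Algebra.trdeg k F = n)
    (f : ∀ i, K i) (hf : ∀ i, Transcendental k (f i)) :
    IsTranscendenceBasis k (fun i => (f i : F)) := by
  have halg : Algebra.IsAlgebraic (Algebra.adjoin k (Set.range fun i => (f i : F))) F := by
    set L := IntermediateField.adjoin k (Set.range fun i => (f i : F)) with hL
    suffices h : Algebra.IsAlgebraic L F by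
      have := (IsFractionRing.comap_isAlgebraic_iff (A := Algebra.adjoin k (Set.range fun i => (f i : F)))
        (K := L) (C := F)).2 h
      exact this
    constructor
    intro x
    have hx : x ∈ ⨆ i ∈ (Finset.univ : Finset (Fin n)), K i := by simp [hgen]
    have h2 := isAlgebraic_iSup (A := fun _ => L) (K := K) Finset.univ (fun i _ x hx => by
      have h3 := (isAlgebraic_of_trdeg_one (h1 i) (hf i)).isAlgebraic ⟨x, hx⟩
      have hle : ∀ y : k⟮f i⟯, ((y : K i) : F) ∈ L := by
        rintro ⟨y, hy⟩
        have : (k⟮f i⟯).map (K i).val ≤ L := by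
          rw [adjoin_map, hL]
          apply adjoin.mono
          rintro _ ⟨z, hz, rfl⟩
          rw [Set.mem_singleton_iff] at hz
          rw [hz]
          exact ⟨i, rfl⟩
        exact this ⟨y, hy, rfl⟩
      let j : k⟮f i⟯ →+* L :=
        { toFun := fun y => ⟨((y : K i) : F), hle y⟩
          map_one' := rfl
          map_mul' := fun _ _ => rfl
          map_zero' := rfl
          map_add' := fun _ _ => rfl }
      exact h3.ringHom_of_comp_eq j (K i).val.toRingHom j.injective rfl) x hx
    rcases isEmpty_or_nonempty (Fin n) with he | hne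
    · have : (⨆ i ∈ (Finset.univ : Finset (Fin n)), L : IntermediateField k F) ≤ L :=
        iSup₂_le fun _ _ => le_rfl
      exact h2.ringHom_of_comp_eq (IntermediateField.inclusion this : _ →+* _) (RingHom.id F)
        (inclusion_injective this) rfl
    · have : (⨆ i ∈ (Finset.univ : Finset (Fin n)), L : IntermediateField k F) ≤ L :=
        iSup₂_le fun _ _ => le_rfl
      exact h2.ringHom_of_comp_eq (IntermediateField.inclusion this : _ →+* _) (RingHom.id F)
        (inclusion_injective this) rfl
  apply Algebra.IsAlgebraic.isTranscendenceBasis_of_lift_le_trdeg_of_finite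
  rw [hn]
  simp

variable [IsAlgClosed k]

/-- `f i` is transcendental over the compositum of the other `K j`. -/
theorem transcendental_over_iSup (K : Fin n → IntermediateField k F)
    (h1 : ∀ i, Algebra.trdeg k (K i) = 1) (hgen : ⨆ i, K i = ⊤) (hn : Algebra.trdeg k F = n)
    (f : ∀ i, K i) (hf : ∀ i, Transcendental k (f i)) (s : Finset (Fin n)) (i : Fin n)
    (hi : i ∉ s) : Transcendental (⨆ j ∈ s, K j : IntermediateField k F) (f i : F) := by
  have hb := isTranscendenceBasis_of_product K h1 hgen hn f hf
  intro halg
  have ht := hb.1.transcendental_adjoin (s := (s : Set (Fin n))) (i := i) (by simpa using hi)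
  apply ht
  set S := (fun i => (f i : F)) '' (s : Set (Fin n)) with hS
  rw [IsFractionRing.isAlgebraic_iff (Algebra.adjoin k S) (IntermediateField.adjoin k S) F]
  set L := IntermediateField.adjoin k S with hL
  have hle : (⨆ j ∈ s, K j) ≤ (algebraicClosure L F).restrictScalars k := by
    refine iSup₂_le fun j hj x hx => ?_
    rw [mem_restrictScalars, mem_algebraicClosure_iff]
    have h3 := (isAlgebraic_of_trdeg_one (h1 j) (hf j)).isAlgebraic ⟨x, hx⟩
    have hle : ∀ y : k⟮f j⟯, ((y : K j) : F) ∈ L := by
      rintro ⟨y, hy⟩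
      have : (k⟮f j⟯).map (K j).val ≤ L := by
        rw [adjoin_map, hL]
        apply adjoin.mono
        rintro _ ⟨z, hz, rfl⟩
        rw [Set.mem_singleton_iff] at hz
        rw [hz]
        exact ⟨j, hj, rfl⟩
      exact this ⟨y, hy, rfl⟩
    let g : k⟮f j⟯ →+* L :=
      { toFun := fun y => ⟨((y : K j) : F), hle y⟩
        map_one' := rfl
        map_mul' := fun _ _ => rfl
        map_zero' := rfl
        map_add' := fun _ _ => rfl }
    exact h3.ringHom_of_comp_eq g (K j).val.toRingHom g.injective rfl
  let g : (⨆ j ∈ s, K j : IntermediateField k F) →+* algebraicClosure L F :=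
    { toFun := fun y => ⟨y, hle y.2⟩
      map_one' := rfl
      map_mul' := fun _ _ => rfl
      map_zero' := rfl
      map_add' := fun _ _ => rfl }
  have h4 : IsAlgebraic (algebraicClosure L F) (f i : F) :=
    halg.ringHom_of_comp_eq g (RingHom.id F) g.injective rfl
  exact h4.restrictScalars L

/-- linear disjointness of `K i` and the compositum of other `K j`'s. -/
theorem linearDisjoint_iSup (K : Fin n → IntermediateField k F)
    (h1 : ∀ i, Algebra.trdeg k (K i) = 1) (hgen : ⨆ i, K i = ⊤) (hn : Algebra.trdeg k F = n)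
    (f : ∀ i, K i) (hf : ∀ i, Transcendental k (f i)) (s : Finset (Fin n)) (i : Fin n)
    (hi : i ∉ s) : (K i).LinearDisjoint (⨆ j ∈ s, K j : IntermediateField k F) :=
  linearDisjoint_of_transcendental _ _ (f i) (isAlgebraic_of_trdeg_one (h1 i) (hf i))
    (transcendental_over_iSup K h1 hgen hn f hf s i hi)

/-- The degree formula for products. -/
theorem relfinrank_iSup (K : Fin n → IntermediateField k F)
    (h1 : ∀ i, Algebra.trdeg k (K i) = 1) (hgen : ⨆ i, K i = ⊤) (hn : Algebra.trdeg k F = n)
    (f : ∀ i, K i) (hf : ∀ i, Transcendental k (f i)) (A : Fin n → IntermediateField k F)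
    (hA : ∀ i, A i ≤ K i) (halg : ∀ i, ∀ x ∈ K i, IsAlgebraic (A i) x) (s : Finset (Fin n)) :
    relfinrank (⨆ i ∈ s, A i) (⨆ i ∈ s, K i) = ∏ i ∈ s, relfinrank (A i) (K i) := by
  classical
  induction s using Finset.induction_on with
  | empty => simp [relfinrank_self]
  | insert i s hi ih =>
    rw [Finset.iSup_insert, Finset.iSup_insert, Finset.prod_insert hi, ← ih]
    have hLD := linearDisjoint_iSup K h1 hgen hn f hf s i hi
    set Ks := ⨆ j ∈ s, K j with hKs
    set As := ⨆ j ∈ s, A j with hAs
    have hAsKs : As ≤ Ks := iSup₂_mono fun j _ => hA j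
    have halgi : Algebra.IsAlgebraic (A i) (extendScalars (hA i)) :=
      ⟨fun x => (isAlgebraic_algebraMap_iff (algebraMap (extendScalars (hA i)) F).injective).1
        (halg i x x.2)⟩
    have halgs : Algebra.IsAlgebraic As (extendScalars hAsKs) :=
      ⟨fun x => (isAlgebraic_algebraMap_iff (algebraMap (extendScalars hAsKs) F).injective).1
        (isAlgebraic_iSup s (fun j _ => halg j) x x.2)⟩
    have e1 := relfinrank_sup_of_linearDisjoint (hA i) hLD halgi
    have hLD' : Ks.LinearDisjoint (A i) := by
      have := hLD.symm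
      exact this.of_le_right (hA i)
    have e2 := relfinrank_sup_of_linearDisjoint hAsKs hLD' halgs
    have e3 := relfinrank_mul_relfinrank (A := A i ⊔ As) (B := A i ⊔ Ks) (C := K i ⊔ Ks)
      (sup_le_sup_left hAsKs _) (sup_le_sup_right (hA i) _)
    rw [← e3, e1, sup_comm (A i) As, sup_comm (A i) Ks, e2, mul_comm]

end

end Pool.Agent.MP_5a3d27_ag
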