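import Pool.Agent.MP_5a3d27_ag.Deriv
import Pool.Agent.MP_5a3d27_ag.Laurent

open IntermediateField Polynomial
open scoped IntermediateField.algebraAdjoinAdjoin

attribute [-instance] HahnSeries.powerSeriesAlgebra

namespace Pool.Agent.MP_5a3d27_ag

section Basic

variable {k N : Type*} [Field k] [Field N] [Algebra k N]

/-- the uniformizer -/
noncomputable abbrev sX (N : Type*) [Field N] : LaurentSeries N := HahnSeries.single 1 1

lemma algebraMap_eq_single (c : k) :
    algebraMap k (LaurentSeries N) c = HahnSeries.single 0 (algebraMap k N c) := rfl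

lemma aeval_sX_coeff (p : N[X]) (n : ℕ) : (aeval (sX N) p).coeff (n : ℤ) = p.coeff n := by
  induction p using Polynomial.induction_on' with
  | add p q hp hq => rw [map_add, HahnSeries.coeff_add, hp, hq, Polynomial.coeff_add]
  | monomial m a =>
    rw [aeval_monomial, HahnSeries.single_pow, one_pow, algebraMap_eq_single,
      HahnSeries.single_mul_single, mul_one, zero_add, coeff_monomial]
    split_ifs with h
    · subst h; simp
    · apply HahnSeries.coeff_single_of_ne
      intro h'
      apply h
      simp only [nsmul_eq_mul, mul_one] at h'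
      exact_mod_cast h'.symm

lemma transcendental_sX : Transcendental N (sX N) := by
  rw [transcendental_iff]
  intro p hp
  ext n
  rw [← aeval_sX_coeff, hp]
  simp

lemma sX_ne_zero : sX N ≠ 0 := by
  simp [sX]

lemma orderTop_algebraMap_nonneg (c : k) : 0 ≤ (algebraMap k (LaurentSeries N) c).orderTop := by
  rw [algebraMap_eq_single]
  exact HahnSeries.orderTop_single_le

lemma orderTop_add_nonneg {x y : LaurentSeries N} {m : WithTop ℤ} (hx : m ≤ x.orderTop)
    (hy : m ≤ y.orderTop) : m ≤ (x + y).orderTop :=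
  (le_min hx hy).trans HahnSeries.min_orderTop_le_orderTop_add

lemma orderTop_mul_nonneg {x y : LaurentSeries N} (hx : 0 ≤ x.orderTop)
    (hy : 0 ≤ y.orderTop) : 0 ≤ (x * y).orderTop := by
  rw [HahnSeries.orderTop_mul]
  exact add_nonneg hx hy

lemma orderTop_aeval_nonneg {x : LaurentSeries N} (hx : 0 ≤ x.orderTop) (p : k[X]) :
    0 ≤ (aeval x p).orderTop := by
  induction p using Polynomial.induction_on with
  | C a => rw [aeval_C]; exact orderTop_algebraMap_nonneg a
  | add p q hp hq => rw [map_add]; exact orderTop_add_nonneg hp hq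
  | monomial n a ih =>
    rw [pow_succ, ← mul_assoc, map_mul, aeval_X]
    exact orderTop_mul_nonneg ih hx

/-- The point `X + b`. -/
noncomputable abbrev pt (c : N) : LaurentSeries N := sX N + HahnSeries.single 0 c

lemma orderTop_pt (c : N) : 0 ≤ (pt c).orderTop := by
  apply orderTop_add_nonneg
  · rw [HahnSeries.orderTop_single one_ne_zero]; exact_mod_cast zero_le_one
  · exact HahnSeries.orderTop_single_le

lemma transcendental_pt (c : N) : Transcendental N (pt c) := by
  intro h
  apply transcendental_sX (N := N)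
  have h1 : IsAlgebraic N (HahnSeries.single 0 c : LaurentSeries N) := by
    have := isAlgebraic_algebraMap (R := N) (A := LaurentSeries N) c
    rwa [algebraMap_eq_single] at this
  have h2 := h.sub h1
  simpa [pt] using h2

/-- The point at infinity. -/
noncomputable abbrev ptInf (N : Type*) [Field N] : LaurentSeries N := HahnSeries.single (-1) 1

lemma sX_mul_ptInf : sX N * ptInf N = 1 := by
  rw [HahnSeries.single_mul_single]
  simp

lemma ptInf_eq_inv : ptInf N = (sX N)⁻¹ := (inv_eq_of_mul_eq_one_right sX_mul_ptInf).symm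

lemma transcendental_ptInf : Transcendental N (ptInf N) := by
  intro h
  apply transcendental_sX (N := N)
  have h2 := h.inv
  rwa [ptInf_eq_inv, inv_inv] at h2

lemma transcendental_of_N {x : LaurentSeries N} (h : Transcendental N x) : Transcendental k x :=
  h.restrictScalars (algebraMap k N).injective

/-- Expansion at `X + b`. -/
lemma aeval_pt_eq (b : k) (p : k[X]) : ∃ q : LaurentSeries N, 0 ≤ q.orderTop ∧
    aeval (pt (algebraMap k N b)) p = algebraMap k (LaurentSeries N) (p.eval b) + sX N * q := by
  obtain ⟨q, hq⟩ := X_sub_C_dvd_sub_C_eval (p := p) (a := b)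
  refine ⟨aeval (pt (algebraMap k N b)) q, orderTop_aeval_nonneg (orderTop_pt _) q, ?_⟩
  have h1 := congrArg (aeval (pt (algebraMap k N b))) hq
  rw [map_sub, map_mul, map_sub, aeval_C, aeval_C, aeval_X] at h1
  have h2 : pt (algebraMap k N b) - algebraMap k (LaurentSeries N) b = sX N := by
    rw [algebraMap_eq_single]; simp [pt]
  rw [h2] at h1
  rw [← h1]; ring

lemma aeval_ptInf_not_pos {p : k[X]} (hp : p ≠ 0) :
    ¬ ((1 : ℤ) : WithTop ℤ) ≤ (aeval (ptInf N) p).orderTop := by
  intro h
  letI : Invertible (ptInf N) := ⟨sX N, sX_mul_ptInf, by rw [mul_comm]; exact sX_mul_ptInf⟩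
  have h1 := eval₂_reverse_mul_pow (algebraMap k (LaurentSeries N)) (ptInf N) p
  have h2 : sX N ^ p.natDegree * aeval (ptInf N) p = aeval (sX N) p.reverse := by
    rw [aeval_def, aeval_def, ← h1]
    have h3 : sX N ^ p.natDegree * ptInf N ^ p.natDegree = 1 := by
      rw [← mul_pow, sX_mul_ptInf, one_pow]
    have h4 : (⅟(ptInf N)) = sX N := rfl
    rw [h4]
    calc _ = (sX N ^ p.natDegree * ptInf N ^ p.natDegree) * eval₂ (algebraMap k (LaurentSeries N)) (sX N) p.reverse := by ring
      _ = _ := by rw [h3, one_mul]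
  obtain ⟨q, hq, hq'⟩ := aeval_pt_eq (N := N) (0 : k) p.reverse
  have h5 : pt (algebraMap k N 0) = sX N := by simp [pt]
  rw [h5, ← h2] at hq'
  have h6 : ((1 : ℤ) : WithTop ℤ) ≤ (sX N ^ p.natDegree * aeval (ptInf N) p).orderTop := by
    rw [HahnSeries.orderTop_mul]
    have : (0 : WithTop ℤ) ≤ (sX N ^ p.natDegree).orderTop := by
      rw [HahnSeries.single_pow, one_pow, HahnSeries.orderTop_single one_ne_zero]
      simp
    calc ((1 : ℤ) : WithTop ℤ) = 0 + ((1 : ℤ) : WithTop ℤ) := by rw [zero_add]
      _ ≤ _ := by gcongr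
  have h7 : (sX N ^ p.natDegree * aeval (ptInf N) p).coeff 0 = 0 := by
    apply HahnSeries.coeff_eq_zero_of_lt_orderTop
    refine lt_of_lt_of_le ?_ h6
    exact_mod_cast zero_lt_one
  have h8 : (sX N * q).coeff 0 = 0 := by
    apply HahnSeries.coeff_eq_zero_of_lt_orderTop
    rw [HahnSeries.orderTop_mul, HahnSeries.orderTop_single one_ne_zero]
    calc ((0 : ℤ) : WithTop ℤ) < ((1 : ℤ) : WithTop ℤ) + 0 := by
          rw [add_zero]; exact_mod_cast zero_lt_one
      _ ≤ _ := by gcongr
  rw [hq', HahnSeries.coeff_add, h8, add_zero, algebraMap_eq_single, HahnSeries.coeff_single_same] at h7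
  have h9 : p.reverse.eval 0 = 0 := by
    exact (map_eq_zero _).1 h7
  rw [← coeff_zero_eq_eval_zero, coeff_zero_reverse] at h9
  exact hp (leadingCoeff_eq_zero.1 h9)

end Basic

end Pool.Agent.MP_5a3d27_ag
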