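import Pool.Agent.MP_5a3d27_ag.Ramify

open IntermediateField Polynomial
open scoped IntermediateField.algebraAdjoinAdjoin

attribute [-instance] HahnSeries.powerSeriesAlgebra

namespace Pool.Agent.MP_5a3d27_ag

section Norm

variable {k K N : Type*} [Field k] [Field K] [Algebra k K] [Field N] [Algebra k N]

/-- The algebraic closure of Laurent series. -/
abbrev Om (N : Type*) [Field N] := AlgebraicClosure (LaurentSeries N)

/-- The embedding `k(f) → N((X))` sending `f` to `c`. -/
noncomputable def jc {f : K} (hf : Transcendental k f) {c : LaurentSeries N}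
    (hc : Transcendental k c) : k⟮f⟯ →ₐ[k] LaurentSeries N :=
  (val k⟮c⟯).comp ((RatFunc.algEquivOfTranscendental c hc).toAlgHom.comp
    (RatFunc.algEquivOfTranscendental f hf).symm.toAlgHom)

lemma jc_gen {f : K} (hf : Transcendental k f) {c : LaurentSeries N}
    (hc : Transcendental k c) : jc hf hc (AdjoinSimple.gen k f) = c := by
  simp [jc]

lemma jc_mul_aeval {f : K} (hf : Transcendental k f) {c : LaurentSeries N}
    (hc : Transcendental k c) (r : k⟮f⟯) :
    jc hf hc r * aeval c ((RatFunc.algEquivOfTranscendental f hf).symm r).denom =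
      aeval c ((RatFunc.algEquivOfTranscendental f hf).symm r).num := by
  have h1 : jc hf hc r = ((RatFunc.algEquivOfTranscendental c hc
    ((RatFunc.algEquivOfTranscendental f hf).symm r) : k⟮c⟯) : LaurentSeries N) := rfl
  rw [h1, RatFunc.algEquivOfTranscendental_apply]
  have h2 : aeval c ((RatFunc.algEquivOfTranscendental f hf).symm r).denom ≠ 0 := by
    intro h
    exact RatFunc.denom_ne_zero _ (transcendental_iff.1 hc _ h)
  field_simp

variable (k K N) in
/-- All embeddings of `K` into the algebraic closure with `f ↦ c` have values in Laurent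
series. -/
def Splits (f : K) (c : LaurentSeries N) : Prop :=
  ∀ ρ : K →ₐ[k] Om N, ρ f = algebraMap (LaurentSeries N) (Om N) c →
    ∀ u, ∃ y, algebraMap (LaurentSeries N) (Om N) y = ρ u

/-- descend an embedding -/
lemma exists_descend {f : K} {c : LaurentSeries N} (h : Splits k K N f c) (ρ : K →ₐ[k] Om N)
    (hρ : ρ f = algebraMap (LaurentSeries N) (Om N) c) :
    ∃ ρ' : K →ₐ[k] LaurentSeries N, ρ' f = c ∧
      ∀ u, algebraMap (LaurentSeries N) (Om N) (ρ' u) = ρ u := by
  choose g hg using h ρ hρ
  have hinj : Function.Injective (algebraMap (LaurentSeries N) (Om N)) :=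
    (algebraMap (LaurentSeries N) (Om N)).injective
  refine ⟨{ toFun := g
            map_one' := hinj (by rw [hg, map_one, map_one])
            map_mul' := fun x y => hinj (by rw [hg, map_mul, map_mul, hg, hg])
            map_zero' := hinj (by rw [hg, map_zero, map_zero])
            map_add' := fun x y => hinj (by rw [hg, map_add, map_add, hg, hg])
            commutes' := fun r => hinj (by
              rw [hg, AlgHom.commutes, ← IsScalarTower.algebraMap_apply]) }, ?_, hg⟩
  exact hinj ((hg f).trans hρ)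

lemma orderTop_prod {ι : Type*} (s : Finset ι) (y : ι → LaurentSeries N) {m : ℤ}
    (hy : ∀ i ∈ s, (m : WithTop ℤ) ≤ (y i).orderTop) :
    ((s.card * m : ℤ) : WithTop ℤ) ≤ (∏ i ∈ s, y i).orderTop := by
  classical
  induction s using Finset.induction_on with
  | empty => simp
  | insert i s hi ih =>
    rw [Finset.prod_insert hi, HahnSeries.orderTop_mul, Finset.card_insert_of_notMem hi]
    have h1 := hy i (Finset.mem_insert_self _ _)
    have h2 := ih fun j hj => hy j (Finset.mem_insert_of_mem hj)
    have h3 : (((s.card + 1 : ℕ) : ℤ) * m) = m + s.card * m := by push_cast; ring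
    rw [h3]
    calc ((m + s.card * m : ℤ) : WithTop ℤ) = (m : WithTop ℤ) + ((s.card * m : ℤ) : WithTop ℤ) := rfl
      _ ≤ _ := by gcongr

/-- The norm in terms of embeddings. -/
lemma orderTop_norm {f : K} (hf : Transcendental k f) [FiniteDimensional k⟮f⟯ K] [CharZero k]
    {c : LaurentSeries N} (hc : Transcendental k c) (hs : Splits k K N f c) (u : K) (m : ℤ)
    (hu : ∀ ρ : K →ₐ[k] LaurentSeries N, ρ f = c → (m : WithTop ℤ) ≤ (ρ u).orderTop) :
    ((Module.finrank k⟮f⟯ K * m : ℤ) : WithTop ℤ) ≤ (jc hf hc (Algebra.norm k⟮f⟯ u)).orderTop := by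
  classical
  letI : Algebra k⟮f⟯ (Om N) :=
    ((algebraMap (LaurentSeries N) (Om N)).comp (jc hf hc : k⟮f⟯ →+* LaurentSeries N)).toAlgebra
  have htower : IsScalarTower k k⟮f⟯ (Om N) := IsScalarTower.of_algebraMap_eq fun x => by
    change algebraMap k (Om N) x =
      algebraMap (LaurentSeries N) (Om N) (jc hf hc (algebraMap k k⟮f⟯ x))
    rw [AlgHom.commutes, ← IsScalarTower.algebraMap_apply]
  have hnorm := Algebra.norm_eq_prod_embeddings k⟮f⟯ (Om N) u
  have hσ : ∀ σ : K →ₐ[k⟮f⟯] Om N, ∃ y : LaurentSeries N, (m : WithTop ℤ) ≤ y.orderTop ∧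
      algebraMap (LaurentSeries N) (Om N) y = σ u := by
    intro σ
    obtain ⟨ρ', h1, h2⟩ := exists_descend hs (σ.restrictScalars k) (by
      have h3 := σ.commutes (AdjoinSimple.gen k f)
      rw [AdjoinSimple.algebraMap_gen] at h3
      rw [AlgHom.restrictScalars_apply, h3]
      change algebraMap (LaurentSeries N) (Om N) (jc hf hc (AdjoinSimple.gen k f)) = _
      rw [jc_gen])
    exact ⟨ρ' u, hu ρ' h1, h2 u⟩
  choose y hy hy' using hσ
  have h4 : jc hf hc (Algebra.norm k⟮f⟯ u) = ∏ σ : K →ₐ[k⟮f⟯] Om N, y σ := by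
    apply (algebraMap (LaurentSeries N) (Om N)).injective
    rw [map_prod]
    simp only [hy']
    exact hnorm
  rw [h4]
  have h5 := orderTop_prod Finset.univ y (m := m) (fun i _ => hy i)
  rw [Finset.card_univ] at h5
  have h6 : Fintype.card (K →ₐ[k⟮f⟯] Om N) = Module.finrank k⟮f⟯ K := AlgHom.card k⟮f⟯ K (Om N)
  rwa [h6] at h5

end Norm

end Pool.Agent.MP_5a3d27_ag
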