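import Pool.Agent.MP_5a3d27_ag.Ramify2

open IntermediateField Polynomial
open scoped IntermediateField.algebraAdjoinAdjoin

attribute [-instance] HahnSeries.powerSeriesAlgebra

namespace Pool.Agent.MP_5a3d27_ag

section RF

variable {k K N : Type*} [Field k] [IsAlgClosed k] [Field K] [Algebra k K] [Field N] [Algebra k N]

lemma trans_pt (b : k) : Transcendental k (pt (algebraMap k N b)) :=
  transcendental_of_N (transcendental_pt _)

lemma trans_inf : Transcendental k (ptInf N) := transcendental_of_N transcendental_ptInf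

/-- A rational function without finite poles and vanishing at infinity is zero. -/
lemma eq_zero_of_orderTop {f : K} (hf : Transcendental k f) (r : k⟮f⟯)
    (h1 : ∀ b : k, 0 ≤ (jc hf (trans_pt (N := N) b) r).orderTop)
    (h2 : ((1 : ℤ) : WithTop ℤ) ≤ (jc hf (trans_inf (N := N)) r).orderTop) : r = 0 := by
  set R := (RatFunc.algEquivOfTranscendental f hf).symm r with hR
  -- the denominator has no root
  have hden : ∀ b : k, R.denom.eval b ≠ 0 := by
    intro b hb
    have hnum : R.num.eval b ≠ 0 := by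
      intro h
      obtain ⟨u, v, huv⟩ := RatFunc.isCoprime_num_denom R
      have := congrArg (Polynomial.eval b) huv
      rw [eval_add, eval_mul, eval_mul, h, hb] at this
      simp at this
    obtain ⟨q, hq, hq'⟩ := aeval_pt_eq (N := N) b R.denom
    obtain ⟨q2, hq2, hq2'⟩ := aeval_pt_eq (N := N) b R.num
    have h3 := jc_mul_aeval hf (trans_pt (N := N) b) r
    rw [← hR, hq', hq2', hb, map_zero, zero_add] at h3
    have key : ∀ q : LaurentSeries N, 0 ≤ q.orderTop → (sX N * q).coeff 0 = 0 := by
      intro q hq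
      apply HahnSeries.coeff_eq_zero_of_lt_orderTop
      rw [HahnSeries.orderTop_mul, HahnSeries.orderTop_single one_ne_zero]
      calc ((0 : ℤ) : WithTop ℤ) < ((1 : ℤ) : WithTop ℤ) + 0 := by
            rw [add_zero]; exact_mod_cast zero_lt_one
        _ ≤ _ := by gcongr
    have h4 := congrArg (fun x => HahnSeries.coeff x 0) h3
    rw [HahnSeries.coeff_add, key q2 hq2, add_zero, algebraMap_eq_single,
      HahnSeries.coeff_single_same, ← mul_assoc, mul_comm _ (sX N), mul_assoc,
      key _ (orderTop_mul_nonneg (h1 b) hq)] at h4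
    exact hnum ((map_eq_zero _).1 h4.symm)
  have hden1 : R.denom = 1 := by
    apply (RatFunc.monic_denom R).natDegree_eq_zero.1
    by_contra hne
    obtain ⟨b, hb⟩ := IsAlgClosed.exists_root R.denom (by
      intro h
      exact hne (natDegree_eq_zero_iff_degree_le_zero.2 h.le))
    exact hden b hb
  have h3 := jc_mul_aeval hf (trans_inf (N := N)) r
  rw [← hR, hden1, map_one, mul_one] at h3
  have hnum : R.num = 0 := by
    by_contra hne
    apply aeval_ptInf_not_pos (N := N) hne
    rw [← h3]
    exact h2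
  have hR0 : R = 0 := RatFunc.num_eq_zero_iff.1 hnum
  rw [hR] at hR0
  exact (map_eq_zero_iff _ (AlgEquiv.injective _)).1 hR0

end RF

section Main

variable {k K N : Type*} [Field k] [CharZero k] [Field K] [Algebra k K] [Field N]
  [Algebra k N]

lemma exists_antiderivative (p : k[X]) : ∃ q : k[X], derivative q = p := by
  induction p using Polynomial.induction_on' with
  | add p q hp hq =>
    obtain ⟨a, ha⟩ := hp
    obtain ⟨b, hb⟩ := hq
    exact ⟨a + b, by rw [map_add, ha, hb]⟩
  | monomial n a =>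
    refine ⟨monomial (n + 1) (a / (n + 1)), ?_⟩
    rw [derivative_monomial]
    simp only [Nat.add_sub_cancel]
    congr 1
    have : (n : k) + 1 ≠ 0 := by exact_mod_cast Nat.succ_ne_zero n
    push_cast
    field_simp

omit [CharZero k] in
lemma orderTop_aeval_ptInf (p : k[X]) (n : ℕ) (h : p.natDegree ≤ n) :
    ((-(n : ℤ) : ℤ) : WithTop ℤ) ≤ (aeval (ptInf N) p).orderTop := by
  rw [aeval_eq_sum_range]
  have key : ((-(n : ℤ) : ℤ) : WithTop ℤ) ≤ HahnSeries.addVal ℤ N
      (∑ i ∈ Finset.range (p.natDegree + 1), p.coeff i • ptInf N ^ i) := by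
    apply AddValuation.map_le_sum
    intro i hi
    rw [Finset.mem_range] at hi
    rw [Algebra.smul_def, AddValuation.map_mul]
    have h1 : (0 : WithTop ℤ) ≤ HahnSeries.addVal ℤ N (algebraMap k (LaurentSeries N) (p.coeff i)) :=
      orderTop_algebraMap_nonneg _
    have h2 : ((-(n : ℤ) : ℤ) : WithTop ℤ) ≤ HahnSeries.addVal ℤ N (ptInf N ^ i) := by
      rw [HahnSeries.addVal_apply, HahnSeries.single_pow, one_pow,
        HahnSeries.orderTop_single one_ne_zero]
      simp only [nsmul_eq_mul, mul_neg, mul_one]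
      exact_mod_cast (by omega : -(n : ℤ) ≤ -(i : ℤ))
    calc ((-(n : ℤ) : ℤ) : WithTop ℤ) = 0 + ((-(n : ℤ) : ℤ) : WithTop ℤ) := by rw [zero_add]
      _ ≤ _ := by gcongr
  exact key

lemma deriv_pt (D : Derivation k K K) {f : K} (hD : D f = 1) (halg : Algebra.IsAlgebraic k⟮f⟯ K)
    (b : N) (ρ : K →ₐ[k] LaurentSeries N) (hρ : ρ f = pt b) (u : K) : ρ (D u) = dX (ρ u) := by
  have h := derivation_eq_zero (k := k) (ρ : K →+* LaurentSeries N)
    (fun x => ρ (D x) - dX (ρ x))
    (fun x y => by simp only [map_add, dX_add]; ring)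
    (fun x y => by
      simp only [D.leibniz, smul_eq_mul, map_add, map_mul, dX_mul, RingHom.coe_coe]; ring)
    (fun c => by
      simp only [D.map_algebraMap, map_zero, AlgHom.commutes, algebraMap_eq_single, dX_C, sub_zero])
    f (by simp only [hD, map_one, hρ, pt, dX_add, dX_X, dX_C]; ring) halg u
  exact sub_eq_zero.1 h

lemma deriv_inf (D : Derivation k K K) {f : K} (hD : D f = 1) (halg : Algebra.IsAlgebraic k⟮f⟯ K)
    (ρ : K →ₐ[k] LaurentSeries N) (hρ : ρ f = ptInf N) (u : K) : ρ (D u) = dInv (ρ u) := by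
  have h := derivation_eq_zero (k := k) (ρ : K →+* LaurentSeries N)
    (fun x => ρ (D x) - dInv (ρ x))
    (fun x y => by simp only [map_add, dInv_add]; ring)
    (fun x y => by
      simp only [D.leibniz, smul_eq_mul, map_add, map_mul, dInv_mul, RingHom.coe_coe]; ring)
    (fun c => by
      simp only [D.map_algebraMap, map_zero, AlgHom.commutes, algebraMap_eq_single, dInv_C, sub_zero])
    f (by simp only [hD, map_one, hρ, ptInf, dInv_X]; ring) halg u
  exact sub_eq_zero.1 h

/-- A nonzero multiple of `w` is integral at all finite places and has bounded poles at infinity. -/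
lemma exists_multiple {f : K} (hf : Transcendental k f) (halg : Algebra.IsAlgebraic k⟮f⟯ K)
    (w : K) : ∃ q : k[X], q ≠ 0 ∧
      (∀ (b : k) (ρ : K →ₐ[k] LaurentSeries N), ρ f = pt (algebraMap k N b) →
        0 ≤ (ρ (aeval f q * w)).orderTop) ∧
      ∃ m : ℕ, ∀ (ρ : K →ₐ[k] LaurentSeries N), ρ f = ptInf N →
        ((-(m : ℤ) : ℤ) : WithTop ℤ) ≤ (ρ (aeval f q * w)).orderTop := by
  letI : Algebra (Polynomial k) K := RingHom.toAlgebra (Polynomial.aeval f).toRingHom
  have hal : IsAlgebraic (Polynomial k) w := isAlgebraic_poly_of_adjoin f w (halg.isAlgebraic w)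
  obtain ⟨q, hq0, P, hP, hPx⟩ := hal.exists_integral_multiple
  rw [Algebra.smul_def] at hPx
  have hqw : algebraMap k[X] K q * w = aeval f q * w := rfl
  rw [hqw] at hPx
  set x := aeval f q * w with hx
  have hmap : ∀ ρ : K →ₐ[k] LaurentSeries N,
      (P.map ((ρ : K →+* LaurentSeries N).comp (algebraMap k[X] K))).eval (ρ x) = 0 := by
    intro ρ
    rw [eval_map, ← RingHom.coe_coe ρ, ← hom_eval₂, hPx, map_zero]
  have hcoeff : ∀ (ρ : K →ₐ[k] LaurentSeries N) (i : ℕ),
      (P.map ((ρ : K →+* LaurentSeries N).comp (algebraMap k[X] K))).coeff i =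
        aeval (ρ f) (P.coeff i) := by
    intro ρ i
    rw [coeff_map]
    change ρ (aeval f (P.coeff i)) = _
    rw [aeval_algHom_apply]
  refine ⟨q, hq0, ?_, ?_⟩
  · intro b ρ hρ
    refine orderTop_nonneg_of_monic _ (hP.map _) (fun i => ?_) (hmap ρ)
    rw [hcoeff, hρ]
    exact orderTop_aeval_nonneg (orderTop_pt _) _
  · let e := (Finset.range (P.natDegree + 1)).sup fun i => (P.coeff i).natDegree
    refine ⟨e, fun ρ hρ => ?_⟩
    set Q := P.map ((ρ : K →+* LaurentSeries N).comp (algebraMap k[X] K)) with hQ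
    have hQm : Q.Monic := hP.map _
    have hdeg : Q.natDegree = P.natDegree := hP.natDegree_map _
    have hs : (sX N ^ e).orderTop = ((e : ℤ) : WithTop ℤ) := by
      rw [HahnSeries.single_pow, one_pow, HahnSeries.orderTop_single one_ne_zero]
      simp
    have hroot : (scaleRoots Q (sX N ^ e)).eval (sX N ^ e * ρ x) = 0 := by
      have := scaleRoots_aeval_eq_zero (A := LaurentSeries N) (r := sX N ^ e) (p := Q) (a := ρ x) (by
        rw [coe_aeval_eq_eval]; exact hmap ρ)
      rwa [coe_aeval_eq_eval] at this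
    have h1 := orderTop_nonneg_of_monic _ ((monic_scaleRoots_iff (sX N ^ e)).2 hQm) (fun i => ?_) hroot
    · rw [HahnSeries.orderTop_mul, hs] at h1
      have h2 : ((-(e : ℤ) : ℤ) : WithTop ℤ) + 0 ≤
          ((-(e : ℤ) : ℤ) : WithTop ℤ) + (((e : ℤ) : WithTop ℤ) + (ρ x).orderTop) := by gcongr
      rw [← add_assoc, add_zero, ← WithTop.coe_add, neg_add_cancel, WithTop.coe_zero,
        zero_add] at h2
      exact h2
    · rw [coeff_scaleRoots, hdeg]
      rcases lt_trichotomy i P.natDegree with hi | hi | hi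
      · rw [HahnSeries.orderTop_mul, hcoeff, hρ]
        have h3 : ((-(e : ℤ) : ℤ) : WithTop ℤ) ≤ (aeval (ptInf N) (P.coeff i)).orderTop := by
          apply orderTop_aeval_ptInf
          exact Finset.le_sup (f := fun i => (P.coeff i).natDegree)
            (Finset.mem_range.2 (by omega : i < P.natDegree + 1))
        have h4 : ((e : ℤ) : WithTop ℤ) ≤ ((sX N ^ e) ^ (P.natDegree - i)).orderTop := by
          rw [← pow_mul, HahnSeries.single_pow, one_pow, HahnSeries.orderTop_single one_ne_zero]
          simp only [nsmul_eq_mul, mul_one]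
          have : e ≤ e * (P.natDegree - i) := Nat.le_mul_of_pos_right _ (by omega)
          exact_mod_cast this
        calc (0 : WithTop ℤ) = ((-(e : ℤ) : ℤ) : WithTop ℤ) + ((e : ℤ) : WithTop ℤ) := by
              rw [← WithTop.coe_add, neg_add_cancel]; rfl
          _ ≤ _ := by gcongr
      · rw [hi, Nat.sub_self, pow_zero, mul_one, ← hdeg, hQm.coeff_natDegree]
        simp
      · rw [coeff_eq_zero_of_natDegree_lt (by omega), zero_mul]
        simp

variable [IsAlgClosed k]

/-- If everything is unramified over the projective line then `K = k(f)`. -/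
theorem mem_of_splits {f : K} (hf : Transcendental k f) [FiniteDimensional k⟮f⟯ K]
    (hfin : ∀ b : k, Splits k K N f (pt (algebraMap k N b))) (hinf : Splits k K N f (ptInf N))
    (w : K) : w ∈ k⟮f⟯ := by
  have halg : Algebra.IsAlgebraic k⟮f⟯ K := inferInstance
  obtain ⟨D, hD⟩ := exists_derivation f hf halg
  let A : K → Prop := fun u => ∀ (b : k) (ρ : K →ₐ[k] LaurentSeries N),
    ρ f = pt (algebraMap k N b) → 0 ≤ (ρ u).orderTop
  let V : ℤ → K → Prop := fun m u => ∀ (ρ : K →ₐ[k] LaurentSeries N),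
    ρ f = ptInf N → (m : WithTop ℤ) ≤ (ρ u).orderTop
  have hA0 : ∀ u, A u → V 1 u → u = 0 := by
    intro u hA hV
    have h1 : Algebra.norm k⟮f⟯ u = 0 := by
      apply eq_zero_of_orderTop (N := N) hf
      · intro b
        have := orderTop_norm hf (trans_pt (N := N) b) (hfin b) u 0 (hA b)
        simpa using this
      · refine le_trans ?_ (orderTop_norm hf (trans_inf (N := N)) hinf u 1 hV)
        have : 0 < Module.finrank k⟮f⟯ K := Module.finrank_pos
        exact_mod_cast (by omega : (1 : ℤ) ≤ (Module.finrank k⟮f⟯ K : ℤ) * 1)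
    exact Algebra.norm_eq_zero_iff.1 h1
  have hAD : ∀ u, A u → A (D u) := by
    intro u hA b ρ hρ
    rw [deriv_pt D hD halg _ ρ hρ]
    exact dX_int (hA b ρ hρ)
  have hVD : ∀ m u, V m u → V (m + 1) (D u) := by
    intro m u hV ρ hρ
    rw [deriv_inf D hD halg ρ hρ]
    exact dInv_order (hV ρ hρ)
  have hpoly : ∀ (m : ℕ) (u : K), A u → V (1 - m) u → ∃ p : k[X], aeval f p = u := by
    intro m
    induction m with
    | zero =>
      intro u hA hV
      refine ⟨0, ?_⟩
      rw [map_zero]
      exact (hA0 u hA (by simpa using hV)).symm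
    | succ m ih =>
      intro u hA hV
      obtain ⟨p, hp⟩ := ih (D u) (hAD u hA) (by
        have := hVD _ u hV
        have e : (1 - ((m + 1 : ℕ) : ℤ)) + 1 = 1 - (m : ℤ) := by push_cast; ring
        rwa [e] at this)
      obtain ⟨q, hq⟩ := exists_antiderivative p
      obtain ⟨c, hc⟩ := ker_derivation f hf halg D hD (u - aeval f q) (by
        rw [map_sub, Derivation.map_aeval, hq, hD, hp]
        simp)
      refine ⟨q + C c, ?_⟩
      rw [map_add, aeval_C, hc]
      ring
  obtain ⟨q, hq0, hq1, m, hq2⟩ := exists_multiple (N := N) hf halg w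
  obtain ⟨p, hp⟩ := hpoly (m + 1) (aeval f q * w) hq1 (fun ρ hρ => by
    have e : (1 - ((m + 1 : ℕ) : ℤ)) = -(m : ℤ) := by push_cast; ring
    rw [e]
    exact hq2 ρ hρ)
  have hq3 : aeval f q ≠ 0 := fun h => hq0 (transcendental_iff.1 hf q h)
  rw [mem_adjoin_simple_iff]
  exact ⟨p, q, by rw [hp]; field_simp⟩

end Main

end Pool.Agent.MP_5a3d27_ag
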