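import Pool.Agent.MP_5a3d27_ag.Main

open IntermediateField Polynomial TensorProduct
open scoped IntermediateField.algebraAdjoinAdjoin

namespace Pool.Agent.MP_5a3d27_ag

section Domain

variable {k : Type*} [Field k]

/-- `K₁ ⊗ ... ⊗ K_n → K₀ ⊗ K₁ ⊗ ... ⊗ K_n`, `x ↦ 1 ⊗ x`. -/
noncomputable def succMap {n : ℕ} (K : Fin (n + 1) → Type*) [∀ i, Field (K i)]
    [∀ i, Algebra k (K i)] : (⨂[k] i : Fin n, K i.succ) →ₐ[k] ⨂[k] i, K i :=
  PiTensorProduct.liftAlgHom (R := k) ((PiTensorProduct.tprod k).curryLeft (1 : K 0))
    (by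
      rw [MultilinearMap.curryLeft_apply, PiTensorProduct.one_def]
      congr 1
      funext i
      refine Fin.cases ?_ (fun j => ?_) i <;> simp)
    (fun x y => by
      rw [MultilinearMap.curryLeft_apply, MultilinearMap.curryLeft_apply,
        MultilinearMap.curryLeft_apply, PiTensorProduct.tprod_mul_tprod]
      congr 1
      funext i
      refine Fin.cases ?_ (fun j => ?_) i <;> simp)

lemma succMap_tprod {n : ℕ} (K : Fin (n + 1) → Type*) [∀ i, Field (K i)]
    [∀ i, Algebra k (K i)] (x : ∀ i : Fin n, K i.succ) :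
    succMap (k := k) K (PiTensorProduct.tprod k x) = PiTensorProduct.tprod k (Fin.cons 1 x) := by
  simp [succMap]

/-- `K₀ ⊗ (K₁ ⊗ ... ⊗ K_n) → K₀ ⊗ K₁ ⊗ ... ⊗ K_n`. -/
noncomputable def consMap {n : ℕ} (K : Fin (n + 1) → Type*) [∀ i, Field (K i)]
    [∀ i, Algebra k (K i)] : (⨂[k] i : Fin n, K i.succ) ⊗[k] K 0 →ₐ[k] ⨂[k] i, K i :=
  Algebra.TensorProduct.lift (succMap K) (PiTensorProduct.singleAlgHom (R := k) 0)
    (fun _ _ => Commute.all _ _)

lemma consMap_tmul {n : ℕ} (K : Fin (n + 1) → Type*) [∀ i, Field (K i)]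
    [∀ i, Algebra k (K i)] (x : ∀ i : Fin n, K i.succ) (y : K 0) :
    consMap (k := k) K ((PiTensorProduct.tprod k x) ⊗ₜ y) =
      PiTensorProduct.tprod k (Fin.cons y x) := by
  rw [consMap, Algebra.TensorProduct.lift_tmul, succMap_tprod, PiTensorProduct.singleAlgHom_apply,
    PiTensorProduct.tprod_mul_tprod]
  congr 1
  funext i
  refine Fin.cases ?_ (fun j => ?_) i <;> simp

lemma consMap_bijective {n : ℕ} (K : Fin (n + 1) → Type*) [∀ i, Field (K i)]
    [∀ i, Algebra k (K i)] : Function.Bijective (consMap (k := k) K) := by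
  classical
  let κ := fun i => Module.Free.ChooseBasisIndex k (K i)
  let b : ∀ i, Module.Basis (κ i) k (K i) := fun i => Module.Free.chooseBasis k (K i)
  let B := (Basis.piTensorProduct (fun i : Fin n => b i.succ)).tensorProduct (b 0)
  let B' := Basis.piTensorProduct b
  let e : ((i : Fin n) → κ i.succ) × κ 0 ≃ ((i : Fin (n + 1)) → κ i) :=
    (Equiv.prodComm _ _).trans (Fin.consEquiv κ)
  have h : (consMap (k := k) K).toLinearMap = (B.equiv B' e).toLinearMap := by
    apply B.ext
    rintro ⟨p, q⟩
    rw [LinearEquiv.coe_coe, Module.Basis.equiv_apply, AlgHom.toLinearMap_apply]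
    simp only [B, B', Module.Basis.tensorProduct_apply, Basis.piTensorProduct_apply]
    rw [consMap_tmul]
    congr 1
    funext i
    refine Fin.cases ?_ (fun j => ?_) i
    · simp [e, Fin.consEquiv]
    · simp [e, Fin.consEquiv]
  have h2 : ⇑(consMap (k := k) K) = ⇑(B.equiv B' e) := by
    have := congrArg DFunLike.coe h
    exact this
  rw [h2]
  exact (B.equiv B' e).bijective

theorem isDomain_pi [IsAlgClosed k] : ∀ (n : ℕ) (K : Fin n → Type*) [∀ i, Field (K i)]
    [∀ i, Algebra k (K i)], IsDomain (⨂[k] i, K i) := by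
  intro n
  induction n with
  | zero =>
    intro K _ _
    have hbij : Function.Bijective (algebraMap k (⨂[k] i, K i)) := by
      have h : ∀ r : k, PiTensorProduct.isEmptyEquiv (Fin 0) (algebraMap k (⨂[k] i, K i) r) = r := by
        intro r
        rw [Algebra.algebraMap_eq_smul_one, map_smul, PiTensorProduct.one_def,
          PiTensorProduct.isEmptyEquiv_apply_tprod, smul_eq_mul, mul_one]
      have h2 : Function.Bijective (PiTensorProduct.isEmptyEquiv (R := k) (s := K) (Fin 0)) :=
        LinearEquiv.bijective _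
      have h3 : (PiTensorProduct.isEmptyEquiv (R := k) (s := K) (Fin 0)) ∘
        (algebraMap k (⨂[k] i, K i)) = id := funext h
      exact (Function.Bijective.of_comp_iff' h2 _).1 (h3 ▸ Function.bijective_id)
    let e := RingEquiv.ofBijective _ hbij
    exact Function.Injective.isDomain e.symm.toRingHom e.symm.injective
  | succ n ih =>
    intro K _ _
    haveI := ih (fun i => K i.succ)
    let R := ⨂[k] i : Fin n, K i.succ
    let L := FractionRing R
    have hdom : IsDomain (L ⊗[k] K 0) := isDomain_tensor
    have hinj : Function.Injective (Algebra.TensorProduct.map (IsScalarTower.toAlgHom k R L)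
      (AlgHom.id k (K 0))) := by
      have h := Module.Flat.rTensor_preserves_injective_linearMap (M := K 0)
        (IsScalarTower.toAlgHom k R L).toLinearMap (IsFractionRing.injective R L)
      exact h
    have hdom2 : IsDomain (R ⊗[k] K 0) := 
      Function.Injective.isDomain (Algebra.TensorProduct.map (IsScalarTower.toAlgHom k R L)
        (AlgHom.id k (K 0))).toRingHom hinj
    let e := (AlgEquiv.ofBijective _ (consMap_bijective (k := k) K)).toRingEquiv
    exact Function.Injective.isDomain e.symm.toRingHom e.symm.injective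

end Domain

section Prod

variable {k : Type*} [Field k] {n : ℕ} (K : Fin n → Type*) [∀ i, Field (K i)] [∀ i, Algebra k (K i)]

lemma tprod_eq_prod (x : ∀ i, K i) :
    PiTensorProduct.tprod k x = ∏ i, PiTensorProduct.singleAlgHom (R := k) (A := K) i (x i) := by
  simp only [PiTensorProduct.singleAlgHom_apply]
  rw [← PiTensorProduct.tprod_prod]
  congr 1
  simp only [MonoidHom.mulSingle_apply]
  exact (Finset.univ_prod_mulSingle x).symm

theorem linearIndependent_pow_of_transcendental {A : Type*} [Field A] [Algebra k A] {f : A}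
    (hf : Transcendental k f) : LinearIndependent k (fun m : ℕ => f ^ m) := by
  have h : LinearIndependent k (fun m : ℕ => (X ^ m : k[X])) := by
    have h2 := (Polynomial.basisMonomials k).linearIndependent
    have h3 : ⇑(Polynomial.basisMonomials k) = fun m : ℕ => (X ^ m : k[X]) := by
      funext m
      simp [Polynomial.coe_basisMonomials, Polynomial.X_pow_eq_monomial]
    rwa [h3] at h2
  have h4 := h.map' (aeval f : k[X] →ₐ[k] A).toLinearMap
    (LinearMap.ker_eq_bot.2 (transcendental_iff_injective.1 hf))
  have h5 : (⇑(aeval f : k[X] →ₐ[k] A).toLinearMap ∘ fun m : ℕ => (X ^ m : k[X])) =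
      fun m : ℕ => f ^ m := by
    funext m
    simp
  rwa [h5] at h4

theorem algebraicIndependent_single (f : ∀ i, K i) (hf : ∀ i, Transcendental k (f i)) :
    AlgebraicIndependent k
      (fun i => PiTensorProduct.singleAlgHom (R := k) (A := K) i (f i)) := by
  classical
  set x := fun i => PiTensorProduct.singleAlgHom (R := k) (A := K) i (f i) with hx
  have hli : LinearIndependent k (fun m : Fin n →₀ ℕ => ∏ i, x i ^ m i) := by
    have h1 : ∀ i, LinearIndepOn k id (Set.range (fun m : ℕ => f i ^ m)) := fun i =>
      (linearIndependent_pow_of_transcendental (hf i)).linearIndepOn_id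
    let b := fun i => Module.Basis.extend (h1 i)
    let B := Basis.piTensorProduct b
    let p : (Fin n →₀ ℕ) → (∀ i, (h1 i).extend (Set.subset_univ _)) := fun m i =>
      ⟨f i ^ m i, Module.Basis.subset_extend (h1 i) ⟨m i, rfl⟩⟩
    have hp : Function.Injective p := by
      intro m m' hmm
      ext i
      have h2 : f i ^ m i = f i ^ m' i := congrArg Subtype.val (congrFun hmm i)
      exact (linearIndependent_pow_of_transcendental (hf i)).injective h2
    have h3 : (fun m : Fin n →₀ ℕ => ∏ i, x i ^ m i) = B ∘ p := by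
      funext m
      simp only [Function.comp_apply, B, Basis.piTensorProduct_apply, b]
      rw [tprod_eq_prod]
      refine Finset.prod_congr rfl fun i _ => ?_
      rw [Module.Basis.extend_apply_self, hx, map_pow]
    rw [h3]
    exact B.linearIndependent.comp p hp
  rw [algebraicIndependent_iff]
  intro q hq
  rw [MvPolynomial.aeval_def, MvPolynomial.eval₂_eq'] at hq
  have h2 := linearIndependent_iff'.1 hli q.support (fun d => q.coeff d) (by
    simpa [Algebra.smul_def] using hq)
  ext m
  rw [MvPolynomial.coeff_zero]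
  by_cases hm : m ∈ q.support
  · exact h2 m hm
  · simpa using hm

variable (F : Type*) [Field F] [Algebra k F] [Algebra (⨂[k] i, K i) F]
  [IsScalarTower k (⨂[k] i, K i) F]

/-- The embedding of the function field of a factor. -/
noncomputable def emb (i : Fin n) : K i →ₐ[k] F :=
  (IsScalarTower.toAlgHom k (⨂[k] i, K i) F).comp (PiTensorProduct.singleAlgHom (R := k) i)

theorem iSup_emb [IsFractionRing (⨂[k] i, K i) F] :
    (⨆ i, (emb (k := k) K F i).fieldRange) = ⊤ := by
  rw [eq_top_iff]
  intro z _
  obtain ⟨a, b, _, rfl⟩ := IsFractionRing.div_surjective (A := ⨂[k] i, K i) z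
  have h : ∀ a : (⨂[k] i, K i), algebraMap _ F a ∈ (⨆ i, (emb (k := k) K F i).fieldRange) := by
    intro a
    induction a using PiTensorProduct.induction_on with
    | smul_tprod r f =>
      rw [Algebra.smul_def, map_mul, ← IsScalarTower.algebraMap_apply, tprod_eq_prod, map_prod]
      refine mul_mem (IntermediateField.algebraMap_mem _ r) (prod_mem fun i _ => ?_)
      exact (le_iSup (fun i => (emb (k := k) K F i).fieldRange) i) ⟨f i, rfl⟩
    | add x y hx hy => rw [map_add]; exact add_mem hx hy
  exact div_mem (h a) (h b)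

theorem isAlgebraic_adjoin_of_product {k F : Type*} [Field k] [Field F] [Algebra k F] {n : ℕ}
    (K : Fin n → IntermediateField k F)
    (h1 : ∀ i, Algebra.trdeg k (K i) = 1) (hgen : ⨆ i, K i = ⊤)
    (f : ∀ i, K i) (hf : ∀ i, Transcendental k (f i)) :
    Algebra.IsAlgebraic (Algebra.adjoin k (Set.range fun i => (f i : F))) F := by
  set L := IntermediateField.adjoin k (Set.range fun i => (f i : F)) with hL
  suffices h : Algebra.IsAlgebraic L F by
    have := (IsFractionRing.comap_isAlgebraic_iff (A := Algebra.adjoin k (Set.range fun i => (f i : F)))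
      (K := L) (C := F)).2 h
    exact this
  constructor
  intro x
  have hx : x ∈ ⨆ i ∈ (Finset.univ : Finset (Fin n)), K i := by simp [hgen]
  have h2 := isAlgebraic_iSup (A := fun _ => L) (K := K) Finset.univ (fun i _ x hx => by
    have h3 := isAlgebraic_over_adjoin (K i) (h1 i) (f i) (hf i) x hx
    have hle : k⟮(f i : F)⟯ ≤ L := by
      rw [adjoin_simple_le_iff]
      exact subset_adjoin k _ ⟨i, rfl⟩
    exact h3.ringHom_of_comp_eq (IntermediateField.inclusion hle : k⟮(f i : F)⟯ →+* L)
      (RingHom.id F) (inclusion_injective hle) rfl) x hx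
  have : (⨆ i ∈ (Finset.univ : Finset (Fin n)), L : IntermediateField k F) ≤ L :=
    iSup₂_le fun _ _ => le_rfl
  exact h2.ringHom_of_comp_eq (IntermediateField.inclusion this : _ →+* _) (RingHom.id F)
    (inclusion_injective this) rfl

theorem trdeg_fieldRange (i : Fin n) (h1 : Algebra.trdeg k (K i) = 1) :
    Algebra.trdeg k (emb (k := k) K F i).fieldRange = 1 := by
  have e : K i ≃ₐ[k] (emb (k := k) K F i).fieldRange := AlgEquiv.ofInjectiveField _
  have h2 := e.lift_trdeg_eq
  rw [h1] at h2
  simpa using h2.symm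

theorem trdeg_product [IsFractionRing (⨂[k] i, K i) F] (h1 : ∀ i, Algebra.trdeg k (K i) = 1) :
    Algebra.trdeg k F = n := by
  have hf : ∀ i, ∃ f : K i, Transcendental k f := by
    intro i
    by_contra hcon
    push Not at hcon
    have : Algebra.IsAlgebraic k (K i) := ⟨fun x => by simpa [Transcendental] using hcon x⟩
    have h2 := _root_.trdeg_eq_zero (R := k) (A := K i)
    rw [h1 i] at h2
    exact one_ne_zero h2
  choose f hf using hf
  have hind := (algebraicIndependent_single (k := k) K f hf).map'
    (f := IsScalarTower.toAlgHom k (⨂[k] i, K i) F) (IsFractionRing.injective _ _)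
  have halg := isAlgebraic_adjoin_of_product (fun i => (emb (k := k) K F i).fieldRange)
    (fun i => trdeg_fieldRange K F i (h1 i)) (iSup_emb K F)
    (fun i => ⟨emb (k := k) K F i (f i), ⟨f i, rfl⟩⟩) (fun i h => hf i (by
      have h2 : IsAlgebraic k (emb (k := k) K F i (f i)) :=
        h.algHom (emb (k := k) K F i).fieldRange.val
      exact (isAlgebraic_algHom_iff _ (emb (k := k) K F i).injective).1 h2))
  have hbasis : IsTranscendenceBasis k (fun i => emb (k := k) K F i (f i)) := by
    refine (AlgebraicIndependent.isTranscendenceBasis_iff_isAlgebraic ?_).2 halg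
    exact hind
  have h3 := hbasis.lift_cardinalMk_eq_trdeg
  simpa using h3.symm

end Prod

end Pool.Agent.MP_5a3d27_ag
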