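import Pool.Agent.MP_5a3d27_ag.Hensel
import Pool.Agent.MP_5a3d27_ag.Embed

open IntermediateField Polynomial
open scoped IntermediateField.algebraAdjoinAdjoin TensorProduct

attribute [-instance] HahnSeries.powerSeriesAlgebra

namespace Pool.Agent.MP_5a3d27_ag

section Ram

variable {k K N : Type*} [Field k] [IsAlgClosed k] [CharZero k] [Field K] [Algebra k K] [Field N]
  [Algebra k N] [IsAlgClosed N]

/-- Up to a change of coordinate, `f` is unramified at infinity. -/
theorem exists_splits_inf {f : K} (hf : Transcendental k f) [FiniteDimensional k⟮f⟯ K] :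
    ∃ f' : K, k⟮f'⟯ = k⟮f⟯ ∧ Transcendental k f' ∧ Splits k K N f' (ptInf N) := by
  obtain ⟨r, hr, hgood⟩ := exists_good (N := N) hf
  obtain ⟨b, hb⟩ : ∃ b : k, r.eval b ≠ 0 := by
    by_contra hcon
    push Not at hcon
    exact hr (Polynomial.funext fun x => by rw [hcon x, eval_zero])
  have hsp : Splits k K N f (pt (algebraMap k N b)) := by
    apply hgood
    rw [aeval_algebraMap_apply, coe_aeval_eq_eval]
    exact (_root_.map_ne_zero _).2 hb
  have hne : f - algebraMap k K b ≠ 0 := by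
    intro h
    rw [sub_eq_zero] at h
    exact hf (h ▸ isAlgebraic_algebraMap b)
  refine ⟨(f - algebraMap k K b)⁻¹, ?_, ?_, ?_⟩
  · apply le_antisymm
    · rw [adjoin_simple_le_iff]
      exact inv_mem (sub_mem (mem_adjoin_simple_self k f) (k⟮f⟯.algebraMap_mem b))
    · rw [adjoin_simple_le_iff]
      have h1 := mem_adjoin_simple_self k (f - algebraMap k K b)⁻¹
      have h2 := inv_mem h1
      rw [inv_inv] at h2
      have h3 := add_mem h2 ((k⟮(f - algebraMap k K b)⁻¹⟯).algebraMap_mem b)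
      simpa using h3
  · intro h
    have h1 := h.inv
    rw [inv_inv] at h1
    have h2 := h1.add (isAlgebraic_algebraMap (R := k) (A := K) b)
    rw [sub_add_cancel] at h2
    exact hf h2
  · intro ρ hρ u
    apply hsp ρ _ u
    have h1 : (ρ f - ρ (algebraMap k K b)) = (ρ (f - algebraMap k K b)⁻¹)⁻¹ := by
      rw [map_inv₀, inv_inv, map_sub]
    rw [hρ, AlgHom.commutes] at h1
    have h2 : ρ f = (algebraMap (LaurentSeries N) (Om N) (ptInf N))⁻¹ + algebraMap k (Om N) b := by
      rw [← h1]; ring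
    rw [h2, ptInf_eq_inv, map_inv₀, inv_inv, pt, map_add, ← algebraMap_eq_single (N := N) b,
      ← IsScalarTower.algebraMap_apply]

/-- There is ramification at some finite point. -/
theorem exists_ramified {f : K} (hf : Transcendental k f) [FiniteDimensional k⟮f⟯ K]
    (hne : k⟮f⟯ ≠ ⊤) (hinf : Splits k K N f (ptInf N)) :
    ∃ (b : k) (ρ : K →ₐ[k] Om N),
      ρ f = algebraMap (LaurentSeries N) (Om N) (pt (algebraMap k N b)) ∧
      ∃ u, ρ u ∉ Set.range (algebraMap (LaurentSeries N) (Om N)) := by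
  by_contra hcon
  push Not at hcon
  apply hne
  rw [eq_top_iff]
  intro w _
  exact mem_of_splits (N := N) hf (fun b ρ hρ u => hcon b ρ hρ u) hinf w

/-- Elements algebraic over the constants are constants. -/
theorem mem_const {x : Om N} (hx : IsAlgebraic N x) : ∃ c : N, algebraMap N (Om N) c = x :=
  minpoly.mem_range_of_degree_eq_one N x
    (IsAlgClosed.degree_eq_one_of_irreducible N (minpoly.irreducible hx.isIntegral))

end Ram

section Ext

/-- Extension of a pair of embeddings from linearly disjoint subfields to the compositum,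
abstract form. -/
theorem exists_extension_aux {k K M F Ω : Type*} [Field k] [IsAlgClosed k] [Field K] [Field M]
    [Field F] [Field Ω] [Algebra k K] [Algebra k M] [Algebra k F] [Algebra k Ω]
    (a : K →ₐ[k] F) (m : M →ₐ[k] F)
    (hgen : ∀ z : F, z ∈ IntermediateField.adjoin k (Set.range a ∪ Set.range m)) (f : K)
    (hK : Algebra.IsAlgebraic k⟮f⟯ K)
    (hf : ∀ p : Polynomial M, Polynomial.eval₂ (m : M →+* F) (a f) p = 0 → p = 0)
    (ρ : K →ₐ[k] Ω) (ι : M →ₐ[k] Ω)
    (hρ : ∀ p : Polynomial M, Polynomial.eval₂ (ι : M →+* Ω) (ρ f) p = 0 → p = 0) :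
    ∃ τ : F →+* Ω, (∀ x : K, τ (a x) = ρ x) ∧ (∀ x : M, τ (m x) = ι x) := by
  have hμ := productMap_injective m a f hK hf
  have hν := productMap_injective ι ρ f hK hρ
  set μ : M ⊗[k] K →ₐ[k] F := Algebra.TensorProduct.productMap m a with hμdef
  set ν : M ⊗[k] K →ₐ[k] Ω := Algebra.TensorProduct.productMap ι ρ with hνdef
  have hμt : ∀ (x : M) (y : K), μ (x ⊗ₜ[k] y) = m x * a y := fun x y => by simp [μ]
  have hνt : ∀ (x : M) (y : K), ν (x ⊗ₜ[k] y) = ι x * ρ y := fun x y => by simp [ν]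
  have hdom : IsDomain (M ⊗[k] K) := isDomain_tensor
  letI : Algebra (M ⊗[k] K) F := RingHom.toAlgebra μ.toRingHom
  have hfaith : FaithfulSMul (M ⊗[k] K) F := by
    rw [faithfulSMul_iff_algebraMap_injective]
    exact hμ
  have hrange : ∀ x ∈ Algebra.adjoin k (Set.range a ∪ Set.range m), ∃ y, μ y = x := by
    intro x hx
    have hle : Algebra.adjoin k (Set.range a ∪ Set.range m) ≤ μ.range := by
      rw [Algebra.adjoin_le_iff]
      rintro y (⟨y, rfl⟩ | ⟨y, rfl⟩)
      · exact ⟨1 ⊗ₜ[k] y, by rw [AlgHom.toRingHom_eq_coe, RingHom.coe_coe, hμt]; simp⟩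
      · exact ⟨y ⊗ₜ[k] 1, by rw [AlgHom.toRingHom_eq_coe, RingHom.coe_coe, hμt]; simp⟩
    exact hle hx
  have hfrac : IsFractionRing (M ⊗[k] K) F := by
    refine IsFractionRing.of_field _ _ fun z => ?_
    have hz := hgen z
    rw [mem_adjoin_iff_div] at hz
    obtain ⟨r, hr, s, hs, rfl⟩ := hz
    obtain ⟨r', hr'⟩ := hrange r hr
    obtain ⟨s', hs'⟩ := hrange s hs
    exact ⟨r', s', by rw [← hr', ← hs']; rfl⟩
  have hν' : Function.Injective ν.toRingHom := hν
  let τ : F →+* Ω := IsFractionRing.lift (A := M ⊗[k] K) (K := F) (g := ν.toRingHom) hν'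
  have hτ : ∀ y, τ (μ y) = ν y := fun y => IsFractionRing.lift_algebraMap hν' y
  refine ⟨τ, ?_, ?_⟩
  · intro x
    have h1 := hτ (1 ⊗ₜ[k] x)
    rw [hμt, hνt, map_one, map_one] at h1
    simpa using h1
  · intro x
    have h1 := hτ (x ⊗ₜ[k] 1)
    rw [hμt, hνt, map_one, map_one] at h1
    simpa using h1

/-- Extension of a pair of embeddings from linearly disjoint subfields to the compositum. -/
theorem exists_extension {k F Ω : Type*} [Field k] [IsAlgClosed k] [Field F] [Algebra k F]
    [Field Ω] [Algebra k Ω] (K M : IntermediateField k F) (hKM : K ⊔ M = ⊤) (f : K)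
    (hK : Algebra.IsAlgebraic k⟮f⟯ K) (hf : Transcendental M (f : F))
    (ρ : K →ₐ[k] Ω) (ι : M →ₐ[k] Ω)
    (hρ : ∀ p : Polynomial M, Polynomial.eval₂ (ι : M →+* Ω) (ρ f) p = 0 → p = 0) :
    ∃ τ : F →+* Ω, (∀ x : K, τ x = ρ x) ∧ (∀ x : M, τ x = ι x) := by
  refine exists_extension_aux K.val M.val ?_ f hK
    (fun p hp => (transcendental_iff.1 hf) p hp) ρ ι hρ
  intro z
  have h1 : Set.range K.val = (K : Set F) := by ext; simp
  have h2 : Set.range M.val = (M : Set F) := by ext; simp
  rw [h1, h2, ← IntermediateField.sup_def, hKM]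
  trivial

end Ext

end Pool.Agent.MP_5a3d27_ag
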